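import Mathlib
/-! The three-dimensional Petty space and the two Hadwiger numbers. -/
set_option autoImplicit false
namespace Petty158

/-- The three-dimensional Petty space: the `ℓ₁`-sum of the Euclidean plane and the real line,
that is `ℝ³` with the norm `√(x² + y²) + |z|`. -/
abbrev Petty : Type := WithLp 1 (EuclideanSpace ℝ (Fin 2) × ℝ)

/-- The Hadwiger number: the largest cardinality of a `1`-separated set of unit vectors. -/
noncomputable def hadwiger (X : Type) [NormedAddCommGroup X] : ℕ∞ :=
  ⨆ S : {S : Set X // (∀ u ∈ S, ‖u‖ = 1) ∧ ∀ u ∈ S, ∀ v ∈ S, u ≠ v → 1 ≤ ‖u - v‖},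
    S.1.encard

/-- The strict Hadwiger number: the largest cardinality of a set of unit vectors whose
distinct members are at distance greater than `1`. -/
noncomputable def strictHadwiger (X : Type) [NormedAddCommGroup X] : ℕ∞ :=
  ⨆ S : {S : Set X // (∀ u ∈ S, ‖u‖ = 1) ∧ ∀ u ∈ S, ∀ v ∈ S, u ≠ v → 1 < ‖u - v‖},
    S.1.encard

end Petty158
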