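import Pool.Agent.W_158c65_h48.AllInf
import Pool.Agent.W_158c65_h48.D10_0_0
/-! Computed certificate data for the case of 10 upper and 0 lower points. -/
set_option autoImplicit false
namespace Petty158
theorem good10_0 : GoodR A10_0 10 0 10 0 2 := part10_0_0
theorem inf10_0 : Inf 10 0 (getSt A10_0 1) := all_inf rfl good10_0 1 (by norm_num)
theorem root10_0 : rootOK 10 0 (getSt A10_0 1) = true := by decide +kernel
end Petty158
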