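import Pool.Agent.W_158c65_h48.AllInf
import Pool.Agent.W_158c65_h48.D7_6_0
import Pool.Agent.W_158c65_h48.D7_6_1
import Pool.Agent.W_158c65_h48.D7_6_2
import Pool.Agent.W_158c65_h48.D7_6_3
import Pool.Agent.W_158c65_h48.D7_6_4
import Pool.Agent.W_158c65_h48.D7_6_5
import Pool.Agent.W_158c65_h48.D7_6_6
import Pool.Agent.W_158c65_h48.D7_6_7
import Pool.Agent.W_158c65_h48.D7_6_8
import Pool.Agent.W_158c65_h48.D7_6_9
import Pool.Agent.W_158c65_h48.D7_6_10
import Pool.Agent.W_158c65_h48.D7_6_11
import Pool.Agent.W_158c65_h48.D7_6_12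
import Pool.Agent.W_158c65_h48.D7_6_13
import Pool.Agent.W_158c65_h48.D7_6_14
import Pool.Agent.W_158c65_h48.D7_6_15
import Pool.Agent.W_158c65_h48.D7_6_16
import Pool.Agent.W_158c65_h48.D7_6_17
import Pool.Agent.W_158c65_h48.D7_6_18
import Pool.Agent.W_158c65_h48.D7_6_19
import Pool.Agent.W_158c65_h48.D7_6_20
import Pool.Agent.W_158c65_h48.D7_6_21
import Pool.Agent.W_158c65_h48.D7_6_22
import Pool.Agent.W_158c65_h48.D7_6_23
import Pool.Agent.W_158c65_h48.D7_6_24
import Pool.Agent.W_158c65_h48.D7_6_25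
import Pool.Agent.W_158c65_h48.D7_6_26
import Pool.Agent.W_158c65_h48.D7_6_27
import Pool.Agent.W_158c65_h48.D7_6_28
import Pool.Agent.W_158c65_h48.D7_6_29
import Pool.Agent.W_158c65_h48.D7_6_30
import Pool.Agent.W_158c65_h48.D7_6_31
import Pool.Agent.W_158c65_h48.D7_6_32
import Pool.Agent.W_158c65_h48.D7_6_33
import Pool.Agent.W_158c65_h48.D7_6_34
import Pool.Agent.W_158c65_h48.D7_6_35
import Pool.Agent.W_158c65_h48.D7_6_36
import Pool.Agent.W_158c65_h48.D7_6_37
import Pool.Agent.W_158c65_h48.D7_6_38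
import Pool.Agent.W_158c65_h48.D7_6_39
import Pool.Agent.W_158c65_h48.D7_6_40
import Pool.Agent.W_158c65_h48.D7_6_41
import Pool.Agent.W_158c65_h48.D7_6_42
import Pool.Agent.W_158c65_h48.D7_6_43
import Pool.Agent.W_158c65_h48.D7_6_44
import Pool.Agent.W_158c65_h48.D7_6_45
import Pool.Agent.W_158c65_h48.D7_6_46
import Pool.Agent.W_158c65_h48.D7_6_47
import Pool.Agent.W_158c65_h48.D7_6_48
import Pool.Agent.W_158c65_h48.D7_6_49
import Pool.Agent.W_158c65_h48.D7_6_50
import Pool.Agent.W_158c65_h48.D7_6_51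
import Pool.Agent.W_158c65_h48.D7_6_52
import Pool.Agent.W_158c65_h48.D7_6_53
import Pool.Agent.W_158c65_h48.D7_6_54
import Pool.Agent.W_158c65_h48.D7_6_55
import Pool.Agent.W_158c65_h48.D7_6_56
import Pool.Agent.W_158c65_h48.D7_6_57
import Pool.Agent.W_158c65_h48.D7_6_58
import Pool.Agent.W_158c65_h48.D7_6_59
import Pool.Agent.W_158c65_h48.D7_6_60
import Pool.Agent.W_158c65_h48.D7_6_61
import Pool.Agent.W_158c65_h48.D7_6_62
import Pool.Agent.W_158c65_h48.D7_6_63
import Pool.Agent.W_158c65_h48.D7_6_64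
import Pool.Agent.W_158c65_h48.D7_6_65
import Pool.Agent.W_158c65_h48.D7_6_66
import Pool.Agent.W_158c65_h48.D7_6_67
import Pool.Agent.W_158c65_h48.D7_6_68
import Pool.Agent.W_158c65_h48.D7_6_69
import Pool.Agent.W_158c65_h48.D7_6_70
import Pool.Agent.W_158c65_h48.D7_6_71
import Pool.Agent.W_158c65_h48.D7_6_72
import Pool.Agent.W_158c65_h48.D7_6_73
import Pool.Agent.W_158c65_h48.D7_6_74
import Pool.Agent.W_158c65_h48.D7_6_75
import Pool.Agent.W_158c65_h48.D7_6_76
import Pool.Agent.W_158c65_h48.D7_6_77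
import Pool.Agent.W_158c65_h48.D7_6_78
import Pool.Agent.W_158c65_h48.D7_6_79
import Pool.Agent.W_158c65_h48.D7_6_80
import Pool.Agent.W_158c65_h48.D7_6_81
import Pool.Agent.W_158c65_h48.D7_6_82
import Pool.Agent.W_158c65_h48.D7_6_83
import Pool.Agent.W_158c65_h48.D7_6_84
import Pool.Agent.W_158c65_h48.D7_6_85
import Pool.Agent.W_158c65_h48.D7_6_86
import Pool.Agent.W_158c65_h48.D7_6_87
import Pool.Agent.W_158c65_h48.D7_6_88
import Pool.Agent.W_158c65_h48.D7_6_89
import Pool.Agent.W_158c65_h48.D7_6_90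
import Pool.Agent.W_158c65_h48.D7_6_91
import Pool.Agent.W_158c65_h48.D7_6_92
import Pool.Agent.W_158c65_h48.D7_6_93
import Pool.Agent.W_158c65_h48.D7_6_94
import Pool.Agent.W_158c65_h48.D7_6_95
import Pool.Agent.W_158c65_h48.D7_6_96
import Pool.Agent.W_158c65_h48.D7_6_97
import Pool.Agent.W_158c65_h48.D7_6_98
import Pool.Agent.W_158c65_h48.D7_6_99
import Pool.Agent.W_158c65_h48.D7_6_100
import Pool.Agent.W_158c65_h48.D7_6_101
import Pool.Agent.W_158c65_h48.D7_6_102
import Pool.Agent.W_158c65_h48.D7_6_103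
import Pool.Agent.W_158c65_h48.D7_6_104
import Pool.Agent.W_158c65_h48.D7_6_105
import Pool.Agent.W_158c65_h48.D7_6_106
import Pool.Agent.W_158c65_h48.D7_6_107
import Pool.Agent.W_158c65_h48.D7_6_108
import Pool.Agent.W_158c65_h48.D7_6_109
import Pool.Agent.W_158c65_h48.D7_6_110
import Pool.Agent.W_158c65_h48.D7_6_111
import Pool.Agent.W_158c65_h48.D7_6_112
import Pool.Agent.W_158c65_h48.D7_6_113
import Pool.Agent.W_158c65_h48.D7_6_114
import Pool.Agent.W_158c65_h48.D7_6_115
import Pool.Agent.W_158c65_h48.D7_6_116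
import Pool.Agent.W_158c65_h48.D7_6_117
import Pool.Agent.W_158c65_h48.D7_6_118
import Pool.Agent.W_158c65_h48.D7_6_119
import Pool.Agent.W_158c65_h48.D7_6_120
import Pool.Agent.W_158c65_h48.D7_6_121
import Pool.Agent.W_158c65_h48.D7_6_122
import Pool.Agent.W_158c65_h48.D7_6_123
import Pool.Agent.W_158c65_h48.D7_6_124
import Pool.Agent.W_158c65_h48.D7_6_125
import Pool.Agent.W_158c65_h48.D7_6_126
/-! Computed certificate data for the case of 7 upper and 6 lower points. -/
set_option autoImplicit false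
namespace Petty158
theorem good7_6 : GoodR A7_6 7 6 13 0 2185 := ((((((((((((((((((((((((((((((((((((((((((((((((((((((((((((((((((((((((((((((((((((((((((((((((((((((((((((((((((((((((((((((part7_6_0.app part7_6_1).app part7_6_2).app part7_6_3).app part7_6_4).app part7_6_5).app part7_6_6).app part7_6_7).app part7_6_8).app part7_6_9).app part7_6_10).app part7_6_11).app part7_6_12).app part7_6_13).app part7_6_14).app part7_6_15).app part7_6_16).app part7_6_17).app part7_6_18).app part7_6_19).app part7_6_20).app part7_6_21).app part7_6_22).app part7_6_23).app part7_6_24).app part7_6_25).app part7_6_26).app part7_6_27).app part7_6_28).app part7_6_29).app part7_6_30).app part7_6_31).app part7_6_32).app part7_6_33).app part7_6_34).app part7_6_35).app part7_6_36).app part7_6_37).app part7_6_38).app part7_6_39).app part7_6_40).app part7_6_41).app part7_6_42).app part7_6_43).app part7_6_44).app part7_6_45).app part7_6_46).app part7_6_47).app part7_6_48).app part7_6_49).app part7_6_50).app part7_6_51).app part7_6_52).app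 part7_6_53).app part7_6_54).app part7_6_55).app part7_6_56).app part7_6_57).app part7_6_58).app part7_6_59).app part7_6_60).app part7_6_61).app part7_6_62).app part7_6_63).app part7_6_64).app part7_6_65).app part7_6_66).app part7_6_67).app part7_6_68).app part7_6_69).app part7_6_70).app part7_6_71).app part7_6_72).app part7_6_73).app part7_6_74).app part7_6_75).app part7_6_76).app part7_6_77).app part7_6_78).app part7_6_79).app part7_6_80).app part7_6_81).app part7_6_82).app part7_6_83).app part7_6_84).app part7_6_85).app part7_6_86).app part7_6_87).app part7_6_88).app part7_6_89).app part7_6_90).app part7_6_91).app part7_6_92).app part7_6_93).app part7_6_94).app part7_6_95).app part7_6_96).app part7_6_97).app part7_6_98).app part7_6_99).app part7_6_100).app part7_6_101).app part7_6_102).app part7_6_103).app part7_6_104).app part7_6_105).app part7_6_106).app part7_6_107).app part7_6_108).app part7_6_109).app part7_6_110).app part7_6_111).app part7_6_112).app part7_6_113).app part7_6_114).app part7_6_115).app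 part7_6_116).app part7_6_117).app part7_6_118).app part7_6_119).app part7_6_120).app part7_6_121).app part7_6_122).app part7_6_123).app part7_6_124).app part7_6_125).app part7_6_126)
theorem inf7_6 : Inf 7 6 (getSt A7_6 2184) := all_inf rfl good7_6 2184 (by norm_num)
theorem root7_6 : rootOK 7 6 (getSt A7_6 2184) = true := by decide +kernel
end Petty158
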