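import Pool.Agent.W_158c65_h48.AllInf
import Pool.Agent.W_158c65_h48.D8_5_0
import Pool.Agent.W_158c65_h48.D8_5_1
import Pool.Agent.W_158c65_h48.D8_5_2
import Pool.Agent.W_158c65_h48.D8_5_3
import Pool.Agent.W_158c65_h48.D8_5_4
import Pool.Agent.W_158c65_h48.D8_5_5
import Pool.Agent.W_158c65_h48.D8_5_6
import Pool.Agent.W_158c65_h48.D8_5_7
import Pool.Agent.W_158c65_h48.D8_5_8
import Pool.Agent.W_158c65_h48.D8_5_9
import Pool.Agent.W_158c65_h48.D8_5_10
import Pool.Agent.W_158c65_h48.D8_5_11
import Pool.Agent.W_158c65_h48.D8_5_12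
import Pool.Agent.W_158c65_h48.D8_5_13
import Pool.Agent.W_158c65_h48.D8_5_14
import Pool.Agent.W_158c65_h48.D8_5_15
import Pool.Agent.W_158c65_h48.D8_5_16
import Pool.Agent.W_158c65_h48.D8_5_17
import Pool.Agent.W_158c65_h48.D8_5_18
import Pool.Agent.W_158c65_h48.D8_5_19
import Pool.Agent.W_158c65_h48.D8_5_20
import Pool.Agent.W_158c65_h48.D8_5_21
import Pool.Agent.W_158c65_h48.D8_5_22
import Pool.Agent.W_158c65_h48.D8_5_23
import Pool.Agent.W_158c65_h48.D8_5_24
import Pool.Agent.W_158c65_h48.D8_5_25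
import Pool.Agent.W_158c65_h48.D8_5_26
import Pool.Agent.W_158c65_h48.D8_5_27
import Pool.Agent.W_158c65_h48.D8_5_28
import Pool.Agent.W_158c65_h48.D8_5_29
import Pool.Agent.W_158c65_h48.D8_5_30
import Pool.Agent.W_158c65_h48.D8_5_31
import Pool.Agent.W_158c65_h48.D8_5_32
import Pool.Agent.W_158c65_h48.D8_5_33
import Pool.Agent.W_158c65_h48.D8_5_34
import Pool.Agent.W_158c65_h48.D8_5_35
import Pool.Agent.W_158c65_h48.D8_5_36
import Pool.Agent.W_158c65_h48.D8_5_37
import Pool.Agent.W_158c65_h48.D8_5_38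
import Pool.Agent.W_158c65_h48.D8_5_39
import Pool.Agent.W_158c65_h48.D8_5_40
import Pool.Agent.W_158c65_h48.D8_5_41
import Pool.Agent.W_158c65_h48.D8_5_42
import Pool.Agent.W_158c65_h48.D8_5_43
import Pool.Agent.W_158c65_h48.D8_5_44
import Pool.Agent.W_158c65_h48.D8_5_45
import Pool.Agent.W_158c65_h48.D8_5_46
/-! Computed certificate data for the case of 8 upper and 5 lower points. -/
set_option autoImplicit false
namespace Petty158
theorem good8_5 : GoodR A8_5 8 5 13 0 807 := ((((((((((((((((((((((((((((((((((((((((((((((part8_5_0.app part8_5_1).app part8_5_2).app part8_5_3).app part8_5_4).app part8_5_5).app part8_5_6).app part8_5_7).app part8_5_8).app part8_5_9).app part8_5_10).app part8_5_11).app part8_5_12).app part8_5_13).app part8_5_14).app part8_5_15).app part8_5_16).app part8_5_17).app part8_5_18).app part8_5_19).app part8_5_20).app part8_5_21).app part8_5_22).app part8_5_23).app part8_5_24).app part8_5_25).app part8_5_26).app part8_5_27).app part8_5_28).app part8_5_29).app part8_5_30).app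 part8_5_31).app part8_5_32).app part8_5_33).app part8_5_34).app part8_5_35).app part8_5_36).app part8_5_37).app part8_5_38).app part8_5_39).app part8_5_40).app part8_5_41).app part8_5_42).app part8_5_43).app part8_5_44).app part8_5_45).app part8_5_46)
theorem inf8_5 : Inf 8 5 (getSt A8_5 806) := all_inf rfl good8_5 806 (by norm_num)
theorem root8_5 : rootOK 8 5 (getSt A8_5 806) = true := by decide +kernel
end Petty158
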