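import Pool.Agent.W_158c65_h48.AllInf
import Pool.Agent.W_158c65_h48.D9_4_0
import Pool.Agent.W_158c65_h48.D9_4_1
import Pool.Agent.W_158c65_h48.D9_4_2
/-! Computed certificate data for the case of 9 upper and 4 lower points. -/
set_option autoImplicit false
namespace Petty158
theorem good9_4 : GoodR A9_4 9 4 13 0 38 := ((part9_4_0.app part9_4_1).app part9_4_2)
theorem inf9_4 : Inf 9 4 (getSt A9_4 37) := all_inf rfl good9_4 37 (by norm_num)
theorem root9_4 : rootOK 9 4 (getSt A9_4 37) = true := by decide +kernel
end Petty158
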