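import Pool.Agent.W_158c65_h48.Good
/-! Computed certificate data for the case of 10 upper and 0 lower points. -/
set_option autoImplicit false
set_option linter.all false
namespace Petty158
/-- the packed list of the states of the chunks -/
def A10_0 : Nat := 0x2608000026080000260800002608000026080000260800002608000026080000260800002600000000000000000000000000000000000000000000000000000026080000260800002608000026080000260800002608000026080000260801002608010026000000
end Petty158
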