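import Pool.Agent.W_158c65_h48.Core
/-! Assembly of the checked chunks. -/
set_option autoImplicit false
namespace Petty158

/-- chunk number `k` passes the check, using only chunks with smaller numbers -/
def Good (A kp km n k : Nat) : Prop :=
  ∃ S f, Nat.ble 1 (chk A k S kp km n f 0 (getSt A k)) = true

/-- the chunks with numbers from `a` to `b - 1` pass -/
def GoodR (A kp km n a b : Nat) : Prop := ∀ k, a ≤ k → k < b → Good A kp km n k

theorem GoodR.nil (A kp km n a : Nat) : GoodR A kp km n a a := fun k h1 h2 => by omega

theorem GoodR.snoc {A kp km n a b : Nat} (h : GoodR A kp km n a b) (hb : Good A kp km n b) :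
    GoodR A kp km n a (Nat.succ b) := fun k h1 h2 => by
  rcases Nat.lt_or_ge k b with h3 | h3
  · exact h k h1 h3
  · have h4 : k = b := by omega
    rw [h4]; exact hb

theorem GoodR.app {A kp km n a b c : Nat} (h : GoodR A kp km n a b) (h' : GoodR A kp km n b c) :
    GoodR A kp km n a c := fun k h1 h2 => by
  rcases Nat.lt_or_ge k b with h3 | h3
  · exact h k h1 h3
  · exact h' k h3 h2

end Petty158
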