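import Mathlib.Init
/-!
Certificate checker for the kissing problem of the three-dimensional Petty space.
All arithmetic is on natural numbers, written with the operations which the kernel evaluates fast.
-/
set_option autoImplicit false
namespace Petty158
noncomputable section

/-- packed table: entry `J` (12 bits) is the floor of `arccos (1 - 2J/1024) / (2π/8192)` -/
def T : Nat := 0xfaef8cf72f5cf49f38f28f19f0befdef1ee5ed9eceec3eb9eafea5e9be92e89e80e77e6fe66e5ee56e4ee47e3fe37e30e29e22e1be14e0de06dffdf9df2decde5ddfdd9dd3dccdc6dc0dbbdb5dafda9da3d9ed98d92d8dd87d82d7dd77d72d6dd67d62d5dd58d53d4ed49d44d3fd3ad35d30d2bd26d22d1dd18d13d0fd0ad05d01cfccf8cf3cefceace6ce1cddcd8cd4cd0ccbcc7cc3cbecbacb6cb2caeca9ca5ca1c9dc99c95c91c8cc88c84c80c7cc78c74c70c6cc69c65c61c5dc59c55c51c4dc4ac46c42c3ec3ac37c33c2fc2bc28c24c20c1cc19c15c11c0ec0ac07c03bffbfcbf8bf5bf1bedbeabe6be3bdfbdcbd8bd5bd1bcebcabc7bc3bc0bbdbb9bb6bb2bafbacba8ba5ba1b9eb9bb97b94b91b8db8ab87b83b80b7db7ab76b73b70b6cb69b66b63b60b5cb59b56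b53b4fb4cb49b46b43b40b3cb39b36b33b30b2db29b26b23b20b1db1ab17b14b11b0db0ab07b04b01afeafbaf8af5af2aefaecae9ae6ae3ae0addadaad7ad4ad1aceacbac8ac5ac2abfabcab9ab6ab3ab0aadaaaaa7aa4aa1a9ea9ca99a96a93a90a8da8aa87a84a81a7ea7ca79a76a73a70a6da6aa67a65a62a5fa5ca59a56a54a51a4ea4ba48a45a43a40a3da3aa37a35a32a2fa2ca29a27a24a21a1ea1ba19a16a13a10a0da0ba08a05a02a009fd9fa9f79f59f29ef9ec9ea9e79e49e29df9dc9d99d79d49d19ce9cc9c99c69c49c19be9bb9b99b69b39b19ae9ab9a99a69a39a199e99b99999699399098e98b98898698398097e97b97997697397196e96b96996696396195e95b95995695395194e94c94994694494193e93c93993793493192f92c92992792492291f91c91a91791591290f90d90a9089059029008fd8fb8f88f58f38f08ee8eb8e88e68e38e18de8dc8d98d68d48d18cf8cc8c98c78c48c28bf8bd8ba8b78b58b28b08ad8ab8a88a58a38a089e89b89989689489188e88c88988788488287f87c87a87787587287086d86b86886586386085e85b85985685485184e84c84984784484283f83d83a83883583283082d82b82882682382181e81c81981681481180f80c80a8078058027ff7fd7fa7f87f57f37f07ee7eb7e97e67e37e17de7dc7d97d77d47d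27cf7cd7ca7c77c57c27c07bd7bb7b87b67b37b17ae7ab7a97a67a47a179f79c79a79779479278f78d78a78878578378077d77b77877677377176e76b76976676476175f75c75a75775475274f74d74a74874574274073d73b73873673373072e72b72972672372171e71c71971771471170f70c70a7077047026ff6fd6fa6f76f56f26f06ed6ea6e86e56e36e06dd6db6d86d66d36d06ce6cb6c86c66c36c16be6bb6b96b66b36b16ae6ac6a96a66a46a169e69c69969669469168e68c68968668468167f67c67967767467166f66c66966666466165e65c65965665465164e64c64964664464163e63b63963663363162e62b62862662362061d61b61861561361060d60a6086056025ff5fd5fa5f75f45f25ef5ec5e95e65e45e15de5db5d85d65d35d05cd5ca5c85c55c25bf5bc5ba5b75b45b15ae5ab5a95a65a35a059d59a59859559258f58c58958658358157e57b57857557256f56c56956656356155e55b55855555254f54c54954654354053d53a53753453152e52b52852552251f51c51951651351050d50a5075045014fe4fb4f84f54f24ee4eb4e84e54e24df4dc4d94d64d24cf4cc4c94c64c34bf4bc4b94b64b34b04ac4a94a64a349f49c49949649348f48c48948548247f47c47847547246e46b46846446145e45a45745345044d44944644243f43c43843543142e42a42742342041c41941541240e40a4074034003fc3f83f53f13ee3ea3e63e33df3db3d73d43d03cc3c83c53c13bd3b93b53b23ae3aa3a63a239e39a39639338f38b38738337f37b37737336e36a36636235e35a35635134d34934534133c33833432f32b32732231e31931531030c3073032fe2fa2f52f02ec2e72e22dd2d92d42cf2ca2c52c02bb2b62b12ac2a72a229d29829228d28828227d27827226d26726125c25625024a24423f23923322c22622021a21320d2062001f91f21eb1e41dd1d61cf1c81c01b81b11a91a119919018817f17616d16415a15014613c13112611a10e1020f40e60d70c70b60a308d073051000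

def bt (J : Nat) : Nat := Nat.land (Nat.shiftRight T (Nat.mul 12 J)) 4095

/-- evaluate `x` to a literal before passing it to `f` -/
def force {α : Type} (x : Nat) (f : Nat → α) : α :=
  Nat.rec (motive := fun _ => α) (f 0) (fun n _ => f (Nat.succ n)) x

def bmax (a b : Nat) : Nat := Nat.add a (Nat.sub b a)

/-- 32-bit record of vertex `v` in the packed state `st` -/
def R (st v : Nat) : Nat := Nat.land (Nat.shiftRight st (Nat.mul 32 v)) 4294967295

/-- lower bound for `1024 * weight` -/
def rlo (X : Nat) : Nat := Nat.land X 1023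
/-- upper bound for `1024 * weight` -/
def rhi (X : Nat) : Nat := Nat.land (Nat.shiftRight X 10) 1023
/-- lower order bound of a lower vertex -/
def ra (X : Nat) : Nat := Nat.land (Nat.shiftRight X 20) 31
/-- upper order bound of a lower vertex -/
def rb (X : Nat) : Nat := Nat.land (Nat.shiftRight X 25) 31

def same (v X u Y : Nat) : Nat :=
  Nat.add (bt (Nat.shiftRight (Nat.sub 1048576 (bmax (Nat.mul (rhi X) (Nat.sub 2048 (rlo Y)))
    (Nat.mul (rhi Y) (Nat.sub 2048 (rlo X))))) 10))
    (Bool.rec (motive := fun _ => Nat) 8192 16384 (Nat.ble (Nat.succ v) u))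

def opp (X Y : Nat) : Nat := bt (Nat.shiftRight (Nat.mul (rlo X) (rlo Y)) 10)

def qp (kp X Y u : Nat) : Nat :=
  Nat.add (opp X Y) (Nat.mul 8192 (Nat.sub 3
    (Nat.div (Nat.sub (Nat.add (rb X) (Nat.mul 2 kp)) u) kp)))

def pq (kp v X Y : Nat) : Nat :=
  Nat.add (opp X Y) (Nat.mul 8192 (Nat.sub 3
    (Nat.div (Nat.sub (Nat.add v (Nat.mul 2 kp)) (Nat.succ (ra Y))) kp)))

def edgeq (kp v X u Y : Nat) : Nat :=
  (Bool.rec (motive := fun _ => Nat) 
    (Bool.rec (motive := fun _ => Nat) (qp kp X Y u) 12288 (Nat.beq (Nat.add (Nat.sub v kp) u) 0)) (same v X u Y) (Nat.ble kp u))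

def edgep (kp v X u Y : Nat) : Nat :=
  (Bool.rec (motive := fun _ => Nat) (same v X u Y) (pq kp v X Y) (Nat.ble kp u))

/-- value of the edge from `v` to `u`: `16384` plus a lower bound for the difference of the angles -/
def edge (kp v X u Y : Nat) : Nat :=
  (Bool.rec (motive := fun _ => Nat) (edgep kp v X u Y) (edgeq kp v X u Y) (Nat.ble kp v))

/-- sum of the edge values along a walk -/
def cyc (kp n st : Nat) (L : Nat) : Nat → Nat → Nat → Nat → Nat → Nat → Nat :=
  Nat.rec (motive := fun _ => Nat → Nat → Nat → Nat → Nat → Nat → Nat)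
    (fun v0 X0 v X _ acc => Nat.add acc (edge kp v X v0 X0))
    (fun _ ih v0 X0 v X H acc =>
      (Bool.rec (motive := fun _ => Nat) 0 
        (ih v0 X0 (Nat.land H 15) (R st (Nat.land H 15)) (Nat.shiftRight H 4)
          (Nat.add acc (edge kp v X (Nat.land H 15) (R st (Nat.land H 15))))) (Nat.ble (Nat.succ (Nat.land H 15)) n))) L

def setA (s v m : Nat) : Nat :=
  Nat.add s (Nat.shiftLeft (Nat.sub m (ra (R s v))) (Nat.add (Nat.mul 32 v) 20))

def setB (s v m : Nat) : Nat :=
  Nat.sub s (Nat.shiftLeft (Nat.sub (rb (R s v)) m) (Nat.add (Nat.mul 32 v) 25))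

def updA (kp j m : Nat) (km st : Nat) : Nat :=
  Nat.rec (motive := fun _ => Nat) st
    (fun k ih => force ih fun s => setA s (Nat.add kp k)
      (Bool.rec (motive := fun _ => Nat) (Nat.sub m kp) m (Nat.ble j k))) km

def updB (kp j m : Nat) (km st : Nat) : Nat :=
  Nat.rec (motive := fun _ => Nat) st
    (fun k ih => force ih fun s => setB s (Nat.add kp k)
      (Bool.rec (motive := fun _ => Nat) (Nat.sub (Nat.add m kp) 1) (Nat.sub m 1) (Nat.ble k j))) km

def wl (st i c : Nat) : Nat :=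
  Nat.sub st (Nat.shiftLeft (Nat.sub (rhi (R st i)) c) (Nat.add (Nat.mul 32 i) 10))

def wr (st i c : Nat) : Nat :=
  Nat.add st (Nat.shiftLeft (Nat.sub c (rlo (R st i))) (Nat.mul 32 i))

def leaf (kp n st pos H L v : Nat) : Nat :=
  (Bool.rec (motive := fun _ => Nat) 0 
    (Bool.rec (motive := fun _ => Nat) (Nat.add pos (Nat.add 10 (Nat.mul 4 L))) 0 (Nat.ble (cyc kp n st L v (R st v) v (R st v) (Nat.shiftRight H 10) 0)
      (Nat.mul 16384 (Nat.succ L)))) (Nat.ble (Nat.succ v) n))

def nodeW (ih : Nat → Nat → Nat) (pos st i c : Nat) : Nat :=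
  force (ih (Nat.add pos 16) (wl st i c)) fun r =>
    (Bool.rec (motive := fun _ => Nat) (force (wr st i c) fun s => ih r s) 0 (Nat.beq r 0))

def nodeO (kp km : Nat) (ih : Nat → Nat → Nat) (pos st j m : Nat) : Nat :=
  (Bool.rec (motive := fun _ => Nat) 0 
    (force (ih (Nat.add pos 16) (updB kp j m km st)) fun r =>
      (Bool.rec (motive := fun _ => Nat) (force (updA kp j m km st) fun s => ih r s) 0 (Nat.beq r 0))) (Nat.ble (Nat.succ j) km))

/-- the packed state number `k` in the list `A` -/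
def getSt (A k : Nat) : Nat :=
  Nat.land (Nat.shiftRight A (Nat.mul 512 k)) 0xffffffffffffffffffffffffffffffffffffffffffffffffffffffffffffffffffffffffffffffffffffffffffffffffffffffffffffffffffffffffffffffff

def cite (A K pos st k : Nat) : Nat :=
  (Bool.rec (motive := fun _ => Nat) 0 
    (Bool.rec (motive := fun _ => Nat) 0 (Nat.add pos 16) (Nat.beq st (getSt A k))) (Nat.ble (Nat.succ k) K))

def node (A K kp km n : Nat) (ih : Nat → Nat → Nat) (pos st H : Nat) : Nat :=
  (Bool.rec (motive := fun _ => Nat) 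
  (Bool.rec (motive := fun _ => Nat) 
  (Bool.rec (motive := fun _ => Nat) 
    (cite A K pos st (Nat.land (Nat.shiftRight H 2) 16383)) 
    (nodeO kp km ih pos st (Nat.land (Nat.shiftRight H 2) 15) (Nat.land (Nat.shiftRight H 6) 31)) (Nat.beq (Nat.land H 3) 2)) 
    (nodeW ih pos st (Nat.land (Nat.shiftRight H 2) 15) (Nat.land (Nat.shiftRight H 6) 1023)) (Nat.beq (Nat.land H 3) 1)) 
    (leaf kp n st pos H (Nat.land (Nat.shiftRight H 2) 15) (Nat.land (Nat.shiftRight H 6) 15)) (Nat.beq (Nat.land H 3) 0))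

/-- The checker: reads the tree in the bit stream `S` at position `pos` for the state `st`; the
value is the position after the tree, or `0` if the check fails. -/
def chk (A K S kp km n : Nat) (fuel : Nat) : Nat → Nat → Nat :=
  Nat.rec (motive := fun _ => Nat → Nat → Nat)
    (fun _ _ => 0)
    (fun _ ih pos st =>
      force (Nat.land (Nat.shiftRight S pos) 18446744073709551615) fun H =>
        node A K kp km n ih pos st H) fuel

end
end Petty158
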