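import Mathlib
import Pool.Agent.W_158c65_h48.Core
/-! Bit field lemmas for the packed states. -/
set_option autoImplicit false
namespace Petty158

/-- the `w`-bit field of `st` at position `p` -/
def fld (st p w : ℕ) : ℕ := st / 2 ^ p % 2 ^ w

lemma land_mask (x n : ℕ) : Nat.land x (2 ^ n - 1) = x % 2 ^ n :=
  Nat.and_two_pow_sub_one_eq_mod x n

lemma shr_eq (x n : ℕ) : Nat.shiftRight x n = x / 2 ^ n := Nat.shiftRight_eq_div_pow x n
lemma shl_eq (x n : ℕ) : Nat.shiftLeft x n = x * 2 ^ n := Nat.shiftLeft_eq x n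

lemma fld_fld (st p w q u : ℕ) (h : q + u ≤ w) : fld (fld st p w) q u = fld st (p + q) u := by
  unfold fld
  obtain ⟨r, rfl⟩ : ∃ r, w = q + (u + r) := ⟨w - (q + u), by omega⟩
  rw [pow_add 2 q (u + r), Nat.mod_mul_right_div_self, Nat.div_div_eq_div_mul, ← pow_add,
    pow_add 2 u r, Nat.mod_mul_right_mod]

lemma fld_zero_of (x w u : ℕ) (h : x < 2 ^ w) (hu : w ≤ u) : fld x 0 u = x := by
  unfold fld
  rw [pow_zero, Nat.div_one, Nat.mod_eq_of_lt]
  exact lt_of_lt_of_le h (Nat.pow_le_pow_right (by norm_num) hu)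

lemma R_eq (st v : ℕ) : R st v = fld st (32 * v) 32 := by
  unfold R fld
  rw [shr_eq]
  exact land_mask _ 32

lemma rlo_eq (X : ℕ) : rlo X = fld X 0 10 := by
  unfold rlo fld
  rw [pow_zero, Nat.div_one]
  exact land_mask _ 10

lemma rhi_eq (X : ℕ) : rhi X = fld X 10 10 := by
  unfold rhi fld
  rw [shr_eq]
  exact land_mask _ 10

lemma ra_eq (X : ℕ) : ra X = fld X 20 5 := by
  unfold ra fld
  rw [shr_eq]
  exact land_mask _ 5

lemma rb_eq (X : ℕ) : rb X = fld X 25 5 := by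
  unfold rb fld
  rw [shr_eq]
  exact land_mask _ 5

lemma rlo_R (st v : ℕ) : rlo (R st v) = fld st (32 * v) 10 := by
  rw [rlo_eq, R_eq, fld_fld _ _ _ _ _ (by norm_num), Nat.add_zero]
lemma rhi_R (st v : ℕ) : rhi (R st v) = fld st (32 * v + 10) 10 := by
  rw [rhi_eq, R_eq, fld_fld _ _ _ _ _ (by norm_num)]
lemma ra_R (st v : ℕ) : ra (R st v) = fld st (32 * v + 20) 5 := by
  rw [ra_eq, R_eq, fld_fld _ _ _ _ _ (by norm_num)]
lemma rb_R (st v : ℕ) : rb (R st v) = fld st (32 * v + 25) 5 := by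
  rw [rb_eq, R_eq, fld_fld _ _ _ _ _ (by norm_num)]

lemma fld_lt (st p w : ℕ) : fld st p w < 2 ^ w := Nat.mod_lt _ (by positivity)

/-- a field below the changed one -/
lemma fld_of_mod_eq (x y p q u : ℕ) (h : x % 2 ^ p = y % 2 ^ p) (hq : q + u ≤ p) :
    fld x q u = fld y q u := by
  have key : ∀ z : ℕ, fld z q u = (z % 2 ^ p) / 2 ^ q % 2 ^ u := by
    intro z
    have := fld_fld z 0 p q u hq
    unfold fld at this ⊢
    simpa using this.symm
  rw [key, key, h]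

/-- a field above the changed one -/
lemma fld_of_div_eq (x y p q u : ℕ) (h : x / 2 ^ p = y / 2 ^ p) (hq : p ≤ q) :
    fld x q u = fld y q u := by
  obtain ⟨r, rfl⟩ := Nat.exists_eq_add_of_le hq
  unfold fld
  rw [pow_add, ← Nat.div_div_eq_div_mul, ← Nat.div_div_eq_div_mul, h]

lemma div_split (st p w : ℕ) : st / 2 ^ p = st / 2 ^ (p + w) * 2 ^ w + fld st p w := by
  unfold fld
  rw [pow_add, ← Nat.div_div_eq_div_mul, mul_comm]
  exact (Nat.div_add_mod _ _).symm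

lemma fld_add (st p w d : ℕ) (h : fld st p w + d < 2 ^ w) :
    fld (st + d * 2 ^ p) p w = fld st p w + d ∧
    ∀ q u, (q + u ≤ p ∨ p + w ≤ q) → fld (st + d * 2 ^ p) q u = fld st q u := by
  have hp : 0 < 2 ^ p := by positivity
  have hw : 0 < 2 ^ w := by positivity
  have h1 : (st + d * 2 ^ p) / 2 ^ p = st / 2 ^ (p + w) * 2 ^ w + (fld st p w + d) := by
    rw [Nat.add_mul_div_right _ _ hp, div_split st p w]; ring
  have h2 : (st + d * 2 ^ p) / 2 ^ (p + w) = st / 2 ^ (p + w) := by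
    rw [pow_add, ← Nat.div_div_eq_div_mul, h1, pow_add, ← Nat.div_div_eq_div_mul, mul_comm,
      Nat.mul_add_div hw, Nat.div_eq_of_lt h, Nat.add_zero]
  refine ⟨?_, ?_⟩
  · have : fld (st + d * 2 ^ p) p w = (st + d * 2 ^ p) / 2 ^ p % 2 ^ w := rfl
    rw [this, h1, mul_comm, Nat.mul_add_mod, Nat.mod_eq_of_lt h]
  · rintro q u (hq | hq)
    · exact fld_of_mod_eq _ _ p _ _ (Nat.add_mul_mod_self_right _ _ _) hq
    · exact fld_of_div_eq _ _ (p + w) _ _ h2 hq

lemma fld_le_div (st p w : ℕ) : fld st p w ≤ st / 2 ^ p := Nat.mod_le _ _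

lemma fld_subt (st p w d : ℕ) (h : d ≤ fld st p w) :
    fld (st - d * 2 ^ p) p w = fld st p w - d ∧
    ∀ q u, (q + u ≤ p ∨ p + w ≤ q) → fld (st - d * 2 ^ p) q u = fld st q u := by
  have hp : 0 < 2 ^ p := by positivity
  have hw : 0 < 2 ^ w := by positivity
  have hle : d * 2 ^ p ≤ st := by
    have h1 : d ≤ st / 2 ^ p := le_trans h (fld_le_div _ _ _)
    calc d * 2 ^ p ≤ st / 2 ^ p * 2 ^ p := Nat.mul_le_mul_right _ h1
      _ ≤ st := Nat.div_mul_le_self _ _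
  obtain ⟨s, hs⟩ : ∃ s, st = s + d * 2 ^ p := ⟨st - d * 2 ^ p, by omega⟩
  subst hs
  rw [Nat.add_sub_cancel]
  have hsd : (s + d * 2 ^ p) / 2 ^ p = s / 2 ^ p + d := Nat.add_mul_div_right _ _ hp
  -- fields of s
  have hsp := div_split s p w
  have hsq := div_split (s + d * 2 ^ p) p w
  have hF : fld s p w < 2 ^ w := fld_lt _ _ _
  have hF' : fld (s + d * 2 ^ p) p w < 2 ^ w := fld_lt _ _ _
  -- s / 2^p = A' * 2^w + (F' - d)
  have h1 : s / 2 ^ p = (s + d * 2 ^ p) / 2 ^ (p + w) * 2 ^ w + (fld (s + d * 2 ^ p) p w - d) := by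
    omega
  have h3 : fld s p w = fld (s + d * 2 ^ p) p w - d := by
    have : fld s p w = s / 2 ^ p % 2 ^ w := rfl
    rw [this, h1, mul_comm, Nat.mul_add_mod, Nat.mod_eq_of_lt (by omega)]
  have h4 : fld s p w + d < 2 ^ w := by omega
  obtain ⟨_, h6⟩ := fld_add s p w d h4
  exact ⟨h3, fun q u hq => (h6 q u hq).symm⟩

end Petty158
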