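import Mathlib
import Pool.Agent.W_158c65_h48.Bits
/-! Configurations on the circle and the meaning of the packed states. -/
set_option autoImplicit false
namespace Petty158

open Real

/-- the extended sequence of upper angles: `P x kp e` is the angle of the upper point number
`e mod kp`, plus the number of full turns -/
noncomputable def P (x : ℕ → ℝ) (kp e : ℕ) : ℝ := x (e % kp) + 2 * π * (e / kp : ℕ)

/-- A configuration of `kp` upper and `km` lower points on a circle with angles `x` and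
weights `w`. -/
structure Cfg (kp km : ℕ) (x w : ℕ → ℝ) : Prop where
  kp_pos : 0 < kp
  w_nonneg : ∀ v < kp + km, 0 ≤ w v
  w_le : ∀ v < kp + km, w v ≤ 1 / 2
  w_zero : w 0 = 0
  w_zero' : 0 < km → w kp = 0
  mono_p : ∀ v u, v ≤ u → u < kp → x v ≤ x u
  wrap_p : ∀ v u, v < kp → u < kp → x v ≤ x u + 2 * π
  mono_q : ∀ v u, kp ≤ v → v ≤ u → u < kp + km → x v ≤ x u
  wrap_q : ∀ v u, kp ≤ v → v < kp + km → kp ≤ u → u < kp + km → x v ≤ x u + 2 * π
  q0 : 0 < km → x kp ≤ x 0 + π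
  q_ge : ∀ v, kp ≤ v → v < kp + km → x 0 ≤ x v
  q_le : ∀ v, kp ≤ v → v < kp + km → x v ≤ x 0 + 4 * π
  same_p : ∀ v u, v < kp → u < kp → v ≠ u →
    cos (x u - x v) ≤ 2 * max (w v * (2 - w u)) (w u * (2 - w v)) - 1
  same_q : ∀ v u, kp ≤ v → v < kp + km → kp ≤ u → u < kp + km → v ≠ u →
    cos (x u - x v) ≤ 2 * max (w v * (2 - w u)) (w u * (2 - w v)) - 1
  opp_pq : ∀ v u, v < kp → kp ≤ u → u < kp + km → cos (x u - x v) ≤ 1 - 2 * (w v * w u)

/-- the packed state `st` is correct for the configuration -/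
structure Sat (kp km st : ℕ) (x w : ℕ → ℝ) : Prop where
  lo : ∀ v < kp + km, (rlo (R st v) : ℝ) ≤ 1024 * w v
  hi : ∀ v < kp + km, 1024 * w v ≤ (rhi (R st v) : ℝ)
  a : ∀ v, kp ≤ v → v < kp + km → P x kp (ra (R st v)) ≤ x v
  b : ∀ v, kp ≤ v → v < kp + km → x v ≤ P x kp (rb (R st v) + 1)

/-- no configuration fits the state -/
def Inf (kp km st : ℕ) : Prop := ∀ x w : ℕ → ℝ, Cfg kp km x w → ¬ Sat kp km st x w

variable {kp km : ℕ} {x w : ℕ → ℝ}

lemma Cfg.P_mono_succ (h : Cfg kp km x w) (e : ℕ) : P x kp e ≤ P x kp (e + 1) := by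
  have hk := h.kp_pos
  unfold P
  rcases Nat.lt_or_ge (e % kp + 1) kp with h1 | h1
  · have h2 : (e + 1) % kp = e % kp + 1 := by
      rw [Nat.add_mod, Nat.mod_eq_of_lt (show 1 < kp by omega)]
      exact Nat.mod_eq_of_lt h1
    have h3 : (e + 1) / kp = e / kp := by
      rw [Nat.succ_div_of_not_dvd]
      intro hd
      have := Nat.mod_eq_zero_of_dvd hd
      omega
    rw [h2, h3]
    have := h.mono_p (e % kp) (e % kp + 1) (by omega) h1
    linarith
  · have hlt := Nat.mod_lt e hk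
    have h2 : e % kp = kp - 1 := by omega
    have hd : kp ∣ e + 1 := by
      refine ⟨e / kp + 1, ?_⟩
      have := Nat.div_add_mod e kp
      rw [Nat.mul_add]
      omega
    have h3 : (e + 1) / kp = e / kp + 1 := Nat.succ_div_of_dvd hd
    have h4 : (e + 1) % kp = 0 := Nat.mod_eq_zero_of_dvd hd
    rw [h2, h3, h4]
    have := h.wrap_p (kp - 1) 0 (by omega) hk
    push_cast
    linarith

lemma Cfg.P_mono (h : Cfg kp km x w) {e f : ℕ} (hef : e ≤ f) : P x kp e ≤ P x kp f :=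
  monotone_nat_of_le_succ (fun n => h.P_mono_succ n) hef

lemma Cfg.P_add (h : Cfg kp km x w) (e t : ℕ) : P x kp (e + kp * t) = P x kp e + 2 * π * t := by
  have hk := h.kp_pos
  unfold P
  rw [Nat.add_mul_mod_self_left, Nat.add_mul_div_left _ _ hk]
  push_cast
  ring

lemma P_lt (x : ℕ → ℝ) {kp v : ℕ} (hv : v < kp) : P x kp v = x v := by
  unfold P
  rw [Nat.mod_eq_of_lt hv, Nat.div_eq_of_lt hv]
  simp

end Petty158
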