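import Mathlib
import Pool.Agent.W_158c65_h48.Cfg
import Pool.Agent.W_158c65_h48.Table
/-! Soundness of the edge values. -/
set_option autoImplicit false
namespace Petty158

open Real

lemma ble_t {a b : ℕ} (h : a ≤ b) : Nat.ble a b = true := Nat.ble_eq_true_of_le h
lemma ble_f {a b : ℕ} (h : ¬ a ≤ b) : Nat.ble a b = false := by
  cases hb : Nat.ble a b with
  | false => rfl
  | true => exact absurd (Nat.le_of_ble_eq_true hb) h

lemma bmax_eq (a b : ℕ) : bmax a b = max a b := by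
  have : bmax a b = a + (b - a) := rfl
  omega

lemma rlo_le (X : ℕ) : rlo X ≤ 1023 := by
  have h : rlo X = X % 2 ^ 10 := land_mask _ 10
  have := Nat.mod_lt X (show 0 < 2 ^ 10 by norm_num)
  omega

lemma same_D {X Y : ℕ} {a b δ : ℝ} (h0 : 0 ≤ δ)
    (ha1 : a ≤ 1 / 2) (hb1 : b ≤ 1 / 2)
    (h1 : (rlo X : ℝ) ≤ 1024 * a) (h2 : 1024 * a ≤ rhi X)
    (h3 : (rlo Y : ℝ) ≤ 1024 * b) (h4 : 1024 * b ≤ rhi Y)
    (hc : cos δ ≤ 2 * max (a * (2 - b)) (b * (2 - a)) - 1) :
    bt (Nat.shiftRight (Nat.sub 1048576 (bmax (Nat.mul (rhi X) (Nat.sub 2048 (rlo Y)))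
    (Nat.mul (rhi Y) (Nat.sub 2048 (rlo X))))) 10) * th ≤ δ := by
  apply bt_angle _ h0
  rw [bmax_eq, shr_eq]
  have hrX := rlo_le X
  have hrY := rlo_le Y
  set A : ℕ := Nat.mul (rhi X) (Nat.sub 2048 (rlo Y)) with hA
  set B : ℕ := Nat.mul (rhi Y) (Nat.sub 2048 (rlo X)) with hB
  have hA' : (A : ℝ) = rhi X * (2048 - rlo Y) := by
    have : A = rhi X * (2048 - rlo Y) := rfl
    rw [this, Nat.cast_mul, Nat.cast_sub (by omega)]; norm_num
  have hB' : (B : ℝ) = rhi Y * (2048 - rlo X) := by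
    have : B = rhi Y * (2048 - rlo X) := rfl
    rw [this, Nat.cast_mul, Nat.cast_sub (by omega)]; norm_num
  have e1 : a * (2 - b) * 1048576 ≤ A := by
    rw [hA']
    have : (1024 * a) * (2048 - 1024 * b) ≤ rhi X * (2048 - rlo Y) :=
      mul_le_mul h2 (by linarith) (by linarith) (by positivity)
    linarith
  have e2 : b * (2 - a) * 1048576 ≤ B := by
    rw [hB']
    have : (1024 * b) * (2048 - 1024 * a) ≤ rhi Y * (2048 - rlo X) :=
      mul_le_mul h4 (by linarith) (by linarith) (by positivity)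
    linarith
  have e3 : max (a * (2 - b)) (b * (2 - a)) * 1048576 ≤ (max A B : ℕ) := by
    rw [Nat.cast_max]
    rcases le_total (a * (2 - b)) (b * (2 - a)) with h | h
    · rw [max_eq_right h]; exact le_trans e2 (le_max_right _ _)
    · rw [max_eq_left h]; exact le_trans e1 (le_max_left _ _)
  set M : ℕ := max A B with hM
  have hsub : Nat.sub 1048576 M = 1048576 - M := rfl
  rw [hsub]
  rcases Nat.le_total M 1048576 with h | h
  · have h5 : (1048576 - M) / 2 ^ 10 * 1024 ≤ 1048576 - M := Nat.div_mul_le_self _ _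
    have h6 : (((1048576 - M) / 2 ^ 10 : ℕ) : ℝ) * 1024 ≤ 1048576 - M := by
      have h7 : ((((1048576 - M) / 2 ^ 10 * 1024 : ℕ)) : ℝ) ≤ ((1048576 - M : ℕ) : ℝ) := by
        exact_mod_cast h5
      rw [Nat.cast_mul, Nat.cast_sub h] at h7
      norm_num at h7 ⊢
      exact h7
    linarith
  · have h5 : 1048576 - M = 0 := by omega
    rw [h5]
    simpa using cos_le_one δ

lemma opp_D {X Y : ℕ} {a b δ : ℝ} (h0 : 0 ≤ δ)
    (ha0 : 0 ≤ a) (h1 : (rlo X : ℝ) ≤ 1024 * a) (h3 : (rlo Y : ℝ) ≤ 1024 * b)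
    (hc : cos δ ≤ 1 - 2 * (a * b)) : opp X Y * th ≤ δ := by
  unfold opp
  apply bt_angle _ h0
  rw [shr_eq]
  have h5 : Nat.mul (rlo X) (rlo Y) / 2 ^ 10 * 1024 ≤ rlo X * rlo Y := Nat.div_mul_le_self _ _
  have h6 : ((Nat.mul (rlo X) (rlo Y) / 2 ^ 10 : ℕ) : ℝ) * 1024 ≤ rlo X * rlo Y := by
    exact_mod_cast h5
  have h7 : (rlo X : ℝ) * rlo Y ≤ (1024 * a) * (1024 * b) :=
    mul_le_mul h1 h3 (Nat.cast_nonneg _) (by positivity)
  linarith

lemma eight_th : 8192 * th = 2 * π := by unfold th; ring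

lemma cos_turn (y : ℝ) (t : ℤ) : cos (y + 2 * π * t) = cos y := by
  rw [show y + 2 * π * t = y + t * (2 * π) by ring]
  exact cos_add_int_mul_two_pi y t

variable {kp km st : ℕ} {x w : ℕ → ℝ}

/-- the statement proved for the value `E` of an edge from `v` to `u` -/
def EdgeOK (x : ℕ → ℝ) (v u E : ℕ) : Prop := ((E : ℝ) - 16384) * th ≤ x u - x v

lemma same_sound (v X u Y : ℕ) {a b : ℝ}
    (ha1 : a ≤ 1 / 2) (hb1 : b ≤ 1 / 2)
    (h1 : (rlo X : ℝ) ≤ 1024 * a) (h2 : 1024 * a ≤ rhi X)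
    (h3 : (rlo Y : ℝ) ≤ 1024 * b) (h4 : 1024 * b ≤ rhi Y)
    (hlt : v < u → x v ≤ x u) (hwrap : x v ≤ x u + 2 * π)
    (hc : cos (x u - x v) ≤ 2 * max (a * (2 - b)) (b * (2 - a)) - 1) :
    EdgeOK x v u (same v X u Y) := by
  unfold EdgeOK same
  have he := eight_th
  rcases Nat.lt_or_ge v u with h | h
  · rw [ble_t (show Nat.succ v ≤ u from h)]
    have hD := same_D (δ := x u - x v) (by linarith [hlt h]) ha1 hb1 h1 h2 h3 h4 hc
    have hcast : ∀ a : ℕ, ((Nat.add a 16384 : ℕ) : ℝ) = a + 16384 := fun a => by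
      have : Nat.add a 16384 = a + 16384 := rfl
      rw [this]; push_cast; ring
    simp only [hcast]
    linarith
  · rw [ble_f (show ¬ Nat.succ v ≤ u by omega)]
    have hc' : cos (x u - x v + 2 * π) ≤ 2 * max (a * (2 - b)) (b * (2 - a)) - 1 := by
      rw [cos_add_two_pi]; exact hc
    have hD := same_D (δ := x u - x v + 2 * π) (by linarith) ha1 hb1 h1 h2 h3 h4 hc'
    have hcast : ∀ a : ℕ, ((Nat.add a 8192 : ℕ) : ℝ) = a + 8192 := fun a => by
      have : Nat.add a 8192 = a + 8192 := rfl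
      rw [this]; push_cast; ring
    simp only [hcast]
    linarith

/-- an edge from a vertex to itself -/
lemma self_sound (v X Y : ℕ) : EdgeOK x v v (same v X v Y) := by
  unfold EdgeOK same
  rw [ble_f (show ¬ Nat.succ v ≤ v by omega)]
  have hcast : ∀ a : ℕ, ((Nat.add a 8192 : ℕ) : ℝ) = a + 8192 := fun a => by
    have : Nat.add a 8192 = a + 8192 := rfl
    rw [this]; push_cast; ring
  simp only [hcast]
  have h1 := bt_le (Nat.shiftRight (Nat.sub 1048576 (bmax (Nat.mul (rhi X) (Nat.sub 2048 (rlo Y)))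
    (Nat.mul (rhi Y) (Nat.sub 2048 (rlo X))))) 10)
  have h2 : (bt (Nat.shiftRight (Nat.sub 1048576 (bmax (Nat.mul (rhi X) (Nat.sub 2048 (rlo Y)))
    (Nat.mul (rhi Y) (Nat.sub 2048 (rlo X))))) 10) : ℝ) ≤ 4095 := by exact_mod_cast h1
  have := th_pos
  rw [sub_self]
  nlinarith

lemma pq_sound (h : Cfg kp km x w) (hs : Sat kp km st x w) {v u : ℕ} (hv : v < kp)
    (hu : kp ≤ u) (hu' : u < kp + km) : EdgeOK x v u (pq kp v (R st v) (R st u)) := by
  unfold EdgeOK
  have hk := h.kp_pos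
  have he := eight_th
  have ha := hs.a u hu hu'
  set a := ra (R st u) with hadef
  set t := (v + 2 * kp - (a + 1)) / kp with ht
  have hpq : pq kp v (R st v) (R st u) = opp (R st v) (R st u) + 8192 * (3 - t) := rfl
  have ht3 : t ≤ 3 := by
    rw [ht]
    apply Nat.div_le_of_le_mul
    have : kp * 3 = 3 * kp := by ring
    omega
  -- v + kp ≤ a + kp * t
  have hkey : v + kp ≤ a + kp * t := by
    have h1 := Nat.div_add_mod (v + 2 * kp - (a + 1)) kp
    have h2 := Nat.mod_lt (v + 2 * kp - (a + 1)) hk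
    rw [← ht] at h1
    omega
  have h3 : P x kp (v + kp * 1) ≤ P x kp (a + kp * t) := h.P_mono (by omega)
  rw [h.P_add, h.P_add, P_lt x hv] at h3
  -- δ
  have h4 : 0 ≤ x u - x v + 2 * π * ((t : ℤ) - 1 : ℤ) := by
    push_cast
    push_cast at h3
    nlinarith [Real.pi_pos]
  have hlt : v < kp + km := by omega
  have h5 : cos (x u - x v + 2 * π * ((t : ℤ) - 1 : ℤ)) ≤ 1 - 2 * (w v * w u) := by
    rw [cos_turn]; exact h.opp_pq v u hv hu hu'
  have hD := opp_D (X := R st v) (Y := R st u) h4 (h.w_nonneg v hlt) (hs.lo v hlt)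
    (hs.lo u hu') h5
  rw [hpq]
  push_cast at hD ⊢
  rw [Nat.cast_sub ht3]
  push_cast
  nlinarith

lemma qp_sound (h : Cfg kp km x w) (hs : Sat kp km st x w) {v u : ℕ} (hv : kp ≤ v)
    (hv' : v < kp + km) (hu : u < kp) : EdgeOK x v u (qp kp (R st v) (R st u) u) := by
  unfold EdgeOK
  have hk := h.kp_pos
  have he := eight_th
  have hb := hs.b v hv hv'
  set b := rb (R st v) with hbdef
  set t := (b + 2 * kp - u) / kp with ht
  have hqp : qp kp (R st v) (R st u) u = opp (R st v) (R st u) + 8192 * (3 - t) := rfl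
  have hkey : b + 1 + kp ≤ u + kp * t := by
    have h1 := Nat.div_add_mod (b + 2 * kp - u) kp
    have h2 := Nat.mod_lt (b + 2 * kp - u) hk
    rw [← ht] at h1
    omega
  have h4 : 0 ≤ x u - x v + 2 * π * ((min t 3 : ℕ) - 1 : ℤ) := by
    rcases Nat.le_total t 3 with h3 | h3
    · rw [min_eq_left h3]
      have h5 : P x kp (b + 1 + kp * 1) ≤ P x kp (u + kp * t) := h.P_mono (by omega)
      rw [h.P_add, h.P_add, P_lt x hu] at h5
      push_cast
      push_cast at h5
      nlinarith [Real.pi_pos]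
    · rw [min_eq_right h3]
      have h5 := h.q_le v hv hv'
      have h6 := h.mono_p 0 u (by omega) hu
      push_cast
      nlinarith [Real.pi_pos]
  have h5 : cos (x u - x v + 2 * π * ((min t 3 : ℕ) - 1 : ℤ)) ≤ 1 - 2 * (w v * w u) := by
    rw [cos_turn, ← cos_neg, neg_sub, mul_comm (w v)]
    exact h.opp_pq u v hu hv hv'
  have hD := opp_D (X := R st v) (Y := R st u) h4 (h.w_nonneg v hv') (hs.lo v hv')
    (hs.lo u (by omega)) h5
  rw [hqp]
  have h7 : 3 - t = 3 - min t 3 := by omega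
  rw [h7]
  push_cast at hD ⊢
  rw [Nat.cast_sub (min_le_right t 3)]
  push_cast
  generalize min (t : ℝ) 3 = m at hD ⊢
  have e1 : ((opp (R st v) (R st u) : ℝ) + 8192 * (3 - m) - 16384) * th =
      opp (R st v) (R st u) * th + 8192 * th - 8192 * th * m := by ring
  rw [e1, he]
  linarith

lemma edge_sound (h : Cfg kp km x w) (hs : Sat kp km st x w) {v u : ℕ} (hv : v < kp + km)
    (hu : u < kp + km) : EdgeOK x v u (edge kp v (R st v) u (R st u)) := by
  unfold edge
  rcases Nat.lt_or_ge v kp with hvp | hvq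
  · rw [ble_f (show ¬ kp ≤ v by omega)]
    show EdgeOK x v u (edgep kp v (R st v) u (R st u))
    unfold edgep
    rcases Nat.lt_or_ge u kp with hup | huq
    · rw [ble_f (show ¬ kp ≤ u by omega)]
      show EdgeOK x v u (same v (R st v) u (R st u))
      by_cases hne : v = u
      · subst hne; exact self_sound _ _ _
      · exact same_sound v _ u _ (h.w_le v hv)
          (h.w_le u hu) (hs.lo v hv) (hs.hi v hv) (hs.lo u hu) (hs.hi u hu)
          (fun hlt => h.mono_p v u hlt.le hup) (h.wrap_p v u hvp hup) (h.same_p v u hvp hup hne)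
    · rw [ble_t huq]
      exact pq_sound h hs hvp huq hu
  · rw [ble_t hvq]
    show EdgeOK x v u (edgeq kp v (R st v) u (R st u))
    unfold edgeq
    rcases Nat.lt_or_ge u kp with hup | huq
    · rw [ble_f (show ¬ kp ≤ u by omega)]
      show EdgeOK x v u (Bool.rec (motive := fun _ => ℕ) (qp kp (R st v) (R st u) u) 12288
        (Nat.beq (Nat.add (Nat.sub v kp) u) 0))
      cases hb : Nat.beq (Nat.add (Nat.sub v kp) u) 0 with
      | false => exact qp_sound h hs hvq hv hup
      | true =>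
        have h1 : v - kp + u = 0 := Nat.eq_of_beq_eq_true hb
        have h2 : v = kp := by omega
        have h3 : u = 0 := by omega
        subst h2 h3
        have h4 := h.q0 (by omega)
        show EdgeOK x v 0 12288
        unfold EdgeOK
        have := th_mul
        push_cast
        linarith
    · rw [ble_t huq]
      show EdgeOK x v u (same v (R st v) u (R st u))
      by_cases hne : v = u
      · subst hne; exact self_sound _ _ _
      · exact same_sound v _ u _ (h.w_le v hv)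
          (h.w_le u hu) (hs.lo v hv) (hs.hi v hv) (hs.lo u hu) (hs.hi u hu)
          (fun hlt => h.mono_q v u hvq hlt.le hu) (h.wrap_q v u hvq hv huq hu)
          (h.same_q v u hvq hv huq hu hne)

end Petty158
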