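import Mathlib
import Pool.Agent.W_158c65_h48.Edge
/-! Soundness of the checker. -/
set_option autoImplicit false
namespace Petty158

open Real

variable {kp km st n : ℕ} {x w : ℕ → ℝ}

lemma force_eq {α : Type} (y : ℕ) (f : ℕ → α) : force y f = f y := by
  cases y <;> rfl

/-! ### walks -/

lemma cyc_sound (h : Cfg kp km x w) (hs : Sat kp km st x w) (hn : n = kp + km) (L : ℕ) :
    ∀ v0 v H acc : ℕ, v0 < n → v < n →
      cyc kp n st L v0 (R st v0) v (R st v) H acc = 0 ∨
      ((cyc kp n st L v0 (R st v0) v (R st v) H acc : ℝ) - acc - 16384 * (L + 1)) * th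
        ≤ x v0 - x v := by
  induction L with
  | zero =>
    intro v0 v H acc hv0 hv
    right
    have h1 : cyc kp n st 0 v0 (R st v0) v (R st v) H acc =
      acc + edge kp v (R st v) v0 (R st v0) := rfl
    have h2 := edge_sound h hs (hn ▸ hv) (hn ▸ hv0)
    unfold EdgeOK at h2
    rw [h1]
    push_cast
    linarith
  | succ L ih =>
    intro v0 v H acc hv0 hv
    have h1 : cyc kp n st (L + 1) v0 (R st v0) v (R st v) H acc =
      Bool.rec (motive := fun _ => ℕ) 0
        (cyc kp n st L v0 (R st v0) (Nat.land H 15) (R st (Nat.land H 15)) (Nat.shiftRight H 4)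
          (acc + edge kp v (R st v) (Nat.land H 15) (R st (Nat.land H 15))))
        (Nat.ble (Nat.succ (Nat.land H 15)) n) := rfl
    rw [h1]
    cases hb : Nat.ble (Nat.succ (Nat.land H 15)) n with
    | false => left; rfl
    | true =>
      have hu : Nat.land H 15 < n := Nat.le_of_ble_eq_true hb
      have h2 := edge_sound h hs (hn ▸ hv) (hn ▸ hu)
      unfold EdgeOK at h2
      rcases ih v0 (Nat.land H 15) (Nat.shiftRight H 4)
        (acc + edge kp v (R st v) (Nat.land H 15) (R st (Nat.land H 15))) hv0 hu with h3 | h3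
      · left; exact h3
      · right
        show ((cyc kp n st L v0 (R st v0) (Nat.land H 15) (R st (Nat.land H 15))
          (Nat.shiftRight H 4) (acc + edge kp v (R st v) (Nat.land H 15)
            (R st (Nat.land H 15))) : ℝ) - acc - 16384 * ((L + 1 : ℕ) + 1)) * th ≤ x v0 - x v
        push_cast at h3 ⊢
        linarith

lemma leaf_sound (hn : n = kp + km) {pos H L v : ℕ} (hl : leaf kp n st pos H L v ≠ 0) :
    Inf kp km st := by
  intro x w h hs
  unfold leaf at hl
  cases hb : Nat.ble (Nat.succ v) n with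
  | false => rw [hb] at hl; exact hl rfl
  | true =>
    rw [hb] at hl
    have hv : v < n := Nat.le_of_ble_eq_true hb
    cases hb2 : Nat.ble (cyc kp n st L v (R st v) v (R st v) (Nat.shiftRight H 10) 0)
      (Nat.mul 16384 (Nat.succ L)) with
    | true => rw [hb2] at hl; exact hl rfl
    | false =>
      have h1 : 16384 * (L + 1) < cyc kp n st L v (R st v) v (R st v) (Nat.shiftRight H 10) 0 := by
        by_contra hcon
        have : cyc kp n st L v (R st v) v (R st v) (Nat.shiftRight H 10) 0 ≤ 16384 * (L + 1) := by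
          omega
        rw [ble_t (show _ ≤ Nat.mul 16384 (Nat.succ L) from this)] at hb2
        exact absurd hb2 (by simp)
      rcases cyc_sound h hs hn L v v (Nat.shiftRight H 10) 0 hv hv with h2 | h2
      · omega
      · have h3 : (16384 * ((L : ℝ) + 1)) <
            (cyc kp n st L v (R st v) v (R st v) (Nat.shiftRight H 10) 0 : ℝ) := by
          exact_mod_cast h1
        have h4 := th_pos
        rw [sub_self] at h2
        push_cast at h2
        nlinarith

/-! ### updates of the packed state -/

lemma R_other {st st' i s wd : ℕ} (hs : s + wd ≤ 32)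
    (hf : ∀ q u, (q + u ≤ 32 * i + s ∨ 32 * i + s + wd ≤ q) → fld st' q u = fld st q u) :
    ∀ v, v ≠ i → R st' v = R st v := by
  intro v hv
  rw [R_eq, R_eq]
  apply hf
  rcases Nat.lt_or_gt_of_ne hv with h | h
  · left; omega
  · right; omega

lemma wl_fields (st i c : ℕ) : rhi (R (wl st i c) i) = min (rhi (R st i)) c ∧
    rlo (R (wl st i c) i) = rlo (R st i) ∧ ra (R (wl st i c) i) = ra (R st i) ∧
    rb (R (wl st i c) i) = rb (R st i) ∧ ∀ v, v ≠ i → R (wl st i c) v = R st v := by
  have h0 : wl st i c = st - (rhi (R st i) - c) * 2 ^ (32 * i + 10) := by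
    unfold wl; rw [shl_eq]; rfl
  have hle : rhi (R st i) - c ≤ fld st (32 * i + 10) 10 := by rw [rhi_R]; omega
  obtain ⟨h1, h2⟩ := fld_subt st (32 * i + 10) 10 _ hle
  rw [← h0] at h1 h2
  refine ⟨?_, ?_, ?_, ?_, ?_⟩
  · rw [rhi_R, h1, rhi_R]; omega
  · rw [rlo_R, rlo_R]; exact h2 _ _ (by omega)
  · rw [ra_R, ra_R]; exact h2 _ _ (by omega)
  · rw [rb_R, rb_R]; exact h2 _ _ (by omega)
  · exact R_other (s := 10) (wd := 10) (by norm_num) h2

lemma wr_fields (st i c : ℕ) (hc : c < 1024) : rlo (R (wr st i c) i) = max (rlo (R st i)) c ∧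
    rhi (R (wr st i c) i) = rhi (R st i) ∧ ra (R (wr st i c) i) = ra (R st i) ∧
    rb (R (wr st i c) i) = rb (R st i) ∧ ∀ v, v ≠ i → R (wr st i c) v = R st v := by
  have h0 : wr st i c = st + (c - rlo (R st i)) * 2 ^ (32 * i) := by
    unfold wr; rw [shl_eq]; rfl
  have hlt := fld_lt st (32 * i) 10
  have hle : fld st (32 * i) 10 + (c - rlo (R st i)) < 2 ^ 10 := by rw [rlo_R]; omega
  obtain ⟨h1, h2⟩ := fld_add st (32 * i) 10 _ hle
  rw [← h0] at h1 h2
  refine ⟨?_, ?_, ?_, ?_, ?_⟩
  · rw [rlo_R, h1, rlo_R]; omega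
  · rw [rhi_R, rhi_R]; exact h2 _ _ (by omega)
  · rw [ra_R, ra_R]; exact h2 _ _ (by omega)
  · rw [rb_R, rb_R]; exact h2 _ _ (by omega)
  · exact R_other (s := 0) (wd := 10) (by norm_num) h2

lemma setA_fields (st i m : ℕ) (hm : m < 32) : ra (R (setA st i m) i) = max (ra (R st i)) m ∧
    rlo (R (setA st i m) i) = rlo (R st i) ∧ rhi (R (setA st i m) i) = rhi (R st i) ∧
    rb (R (setA st i m) i) = rb (R st i) ∧ ∀ v, v ≠ i → R (setA st i m) v = R st v := by
  have h0 : setA st i m = st + (m - ra (R st i)) * 2 ^ (32 * i + 20) := by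
    unfold setA; rw [shl_eq]; rfl
  have hlt := fld_lt st (32 * i + 20) 5
  have hle : fld st (32 * i + 20) 5 + (m - ra (R st i)) < 2 ^ 5 := by rw [ra_R]; omega
  obtain ⟨h1, h2⟩ := fld_add st (32 * i + 20) 5 _ hle
  rw [← h0] at h1 h2
  refine ⟨?_, ?_, ?_, ?_, ?_⟩
  · rw [ra_R, h1, ra_R]; omega
  · rw [rlo_R, rlo_R]; exact h2 _ _ (by omega)
  · rw [rhi_R, rhi_R]; exact h2 _ _ (by omega)
  · rw [rb_R, rb_R]; exact h2 _ _ (by omega)
  · exact R_other (s := 20) (wd := 5) (by norm_num) h2

lemma setB_fields (st i m : ℕ) : rb (R (setB st i m) i) = min (rb (R st i)) m ∧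
    rlo (R (setB st i m) i) = rlo (R st i) ∧ rhi (R (setB st i m) i) = rhi (R st i) ∧
    ra (R (setB st i m) i) = ra (R st i) ∧ ∀ v, v ≠ i → R (setB st i m) v = R st v := by
  have h0 : setB st i m = st - (rb (R st i) - m) * 2 ^ (32 * i + 25) := by
    unfold setB; rw [shl_eq]; rfl
  have hle : rb (R st i) - m ≤ fld st (32 * i + 25) 5 := by rw [rb_R]; omega
  obtain ⟨h1, h2⟩ := fld_subt st (32 * i + 25) 5 _ hle
  rw [← h0] at h1 h2
  refine ⟨?_, ?_, ?_, ?_, ?_⟩
  · rw [rb_R, h1, rb_R]; omega
  · rw [rlo_R, rlo_R]; exact h2 _ _ (by omega)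
  · rw [rhi_R, rhi_R]; exact h2 _ _ (by omega)
  · rw [ra_R, ra_R]; exact h2 _ _ (by omega)
  · exact R_other (s := 25) (wd := 5) (by norm_num) h2

lemma wl_sat (hs : Sat kp km st x w) {i c : ℕ} (hc : i < kp + km → 1024 * w i ≤ c) :
    Sat kp km (wl st i c) x w := by
  obtain ⟨f1, f2, f3, f4, f5⟩ := wl_fields st i c
  refine ⟨fun v hv => ?_, fun v hv => ?_, fun v hv hv' => ?_, fun v hv hv' => ?_⟩
  · by_cases hvi : v = i
    · subst hvi; rw [f2]; exact hs.lo v hv
    · rw [f5 v hvi]; exact hs.lo v hv
  · by_cases hvi : v = i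
    · subst hvi; rw [f1, Nat.cast_min]; exact le_min (hs.hi v hv) (hc hv)
    · rw [f5 v hvi]; exact hs.hi v hv
  · by_cases hvi : v = i
    · subst hvi; rw [f3]; exact hs.a v hv hv'
    · rw [f5 v hvi]; exact hs.a v hv hv'
  · by_cases hvi : v = i
    · subst hvi; rw [f4]; exact hs.b v hv hv'
    · rw [f5 v hvi]; exact hs.b v hv hv'

lemma wr_sat (hs : Sat kp km st x w) {i c : ℕ} (hc' : c < 1024)
    (hc : i < kp + km → c ≤ 1024 * w i) : Sat kp km (wr st i c) x w := by
  obtain ⟨f1, f2, f3, f4, f5⟩ := wr_fields st i c hc'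
  refine ⟨fun v hv => ?_, fun v hv => ?_, fun v hv hv' => ?_, fun v hv hv' => ?_⟩
  · by_cases hvi : v = i
    · subst hvi; rw [f1, Nat.cast_max]; exact max_le (hs.lo v hv) (hc hv)
    · rw [f5 v hvi]; exact hs.lo v hv
  · by_cases hvi : v = i
    · subst hvi; rw [f2]; exact hs.hi v hv
    · rw [f5 v hvi]; exact hs.hi v hv
  · by_cases hvi : v = i
    · subst hvi; rw [f3]; exact hs.a v hv hv'
    · rw [f5 v hvi]; exact hs.a v hv hv'
  · by_cases hvi : v = i
    · subst hvi; rw [f4]; exact hs.b v hv hv'
    · rw [f5 v hvi]; exact hs.b v hv hv'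

lemma setA_sat (hs : Sat kp km st x w) {i m : ℕ} (hm : m < 32)
    (hc : P x kp m ≤ x i) : Sat kp km (setA st i m) x w := by
  obtain ⟨f1, f2, f3, f4, f5⟩ := setA_fields st i m hm
  refine ⟨fun v hv => ?_, fun v hv => ?_, fun v hv hv' => ?_, fun v hv hv' => ?_⟩
  · by_cases hvi : v = i
    · subst hvi; rw [f2]; exact hs.lo v hv
    · rw [f5 v hvi]; exact hs.lo v hv
  · by_cases hvi : v = i
    · subst hvi; rw [f3]; exact hs.hi v hv
    · rw [f5 v hvi]; exact hs.hi v hv
  · by_cases hvi : v = i
    · subst hvi; rw [f1]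
      rcases le_total (ra (R st v)) m with h | h
      · rw [max_eq_right h]; exact hc
      · rw [max_eq_left h]; exact hs.a v hv hv'
    · rw [f5 v hvi]; exact hs.a v hv hv'
  · by_cases hvi : v = i
    · subst hvi; rw [f4]; exact hs.b v hv hv'
    · rw [f5 v hvi]; exact hs.b v hv hv'

lemma setB_sat (hs : Sat kp km st x w) {i m : ℕ}
    (hc : x i ≤ P x kp (m + 1)) : Sat kp km (setB st i m) x w := by
  obtain ⟨f1, f2, f3, f4, f5⟩ := setB_fields st i m
  refine ⟨fun v hv => ?_, fun v hv => ?_, fun v hv hv' => ?_, fun v hv hv' => ?_⟩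
  · by_cases hvi : v = i
    · subst hvi; rw [f2]; exact hs.lo v hv
    · rw [f5 v hvi]; exact hs.lo v hv
  · by_cases hvi : v = i
    · subst hvi; rw [f3]; exact hs.hi v hv
    · rw [f5 v hvi]; exact hs.hi v hv
  · by_cases hvi : v = i
    · subst hvi; rw [f4]; exact hs.a v hv hv'
    · rw [f5 v hvi]; exact hs.a v hv hv'
  · by_cases hvi : v = i
    · subst hvi; rw [f1]
      rcases le_total (rb (R st v)) m with h | h
      · rw [min_eq_left h]; exact hs.b v hv hv'
      · rw [min_eq_right h]; exact hc
    · rw [f5 v hvi]; exact hs.b v hv hv'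

lemma updA_sat (h : Cfg kp km x w) (hs : Sat kp km st x w) {j m : ℕ} (hj : j < km) (hm : m < 32)
    (hx : P x kp m ≤ x (kp + j)) : ∀ K ≤ km, Sat kp km (updA kp j m K st) x w := by
  intro K
  induction K with
  | zero => intro _; exact hs
  | succ K ih =>
    intro hK
    have h1 : updA kp j m (K + 1) st = force (updA kp j m K st) fun s => setA s (Nat.add kp K)
      (Bool.rec (motive := fun _ => ℕ) (Nat.sub m kp) m (Nat.ble j K)) := rfl
    rw [h1, force_eq]
    have hsat := ih (by omega)
    rcases Nat.lt_or_ge K j with hlt | hge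
    · rw [ble_f (show ¬ j ≤ K by omega)]
      show Sat kp km (setA (updA kp j m K st) (kp + K) (m - kp)) x w
      apply setA_sat hsat (by omega)
      rcases Nat.lt_or_ge m kp with h2 | h2
      · rw [Nat.sub_eq_zero_of_le h2.le, P_lt x h.kp_pos]
        exact h.q_ge _ (by omega) (by omega)
      · have h3 := h.P_add (m - kp) 1
        rw [show m - kp + kp * 1 = m by omega] at h3
        have h4 := h.wrap_q (kp + j) (kp + K) (by omega) (by omega) (by omega) (by omega)
        push_cast at h3
        linarith
    · rw [ble_t hge]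
      show Sat kp km (setA (updA kp j m K st) (kp + K) m) x w
      apply setA_sat hsat hm
      exact le_trans hx (h.mono_q _ _ (by omega) (by omega) (by omega))

lemma updB_sat (h : Cfg kp km x w) (hs : Sat kp km st x w) {j m : ℕ} (hj : j < km)
    (hx : x (kp + j) ≤ P x kp m) : ∀ K ≤ km, Sat kp km (updB kp j m K st) x w := by
  intro K
  have hk := h.kp_pos
  induction K with
  | zero => intro _; exact hs
  | succ K ih =>
    intro hK
    have h1 : updB kp j m (K + 1) st = force (updB kp j m K st) fun s => setB s (Nat.add kp K)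
      (Bool.rec (motive := fun _ => ℕ) (Nat.sub (Nat.add m kp) 1) (Nat.sub m 1)
        (Nat.ble K j)) := rfl
    rw [h1, force_eq]
    have hsat := ih (by omega)
    rcases Nat.lt_or_ge j K with hlt | hge
    · rw [ble_f (show ¬ K ≤ j by omega)]
      show Sat kp km (setB (updB kp j m K st) (kp + K) (m + kp - 1)) x w
      apply setB_sat hsat
      rw [show m + kp - 1 + 1 = m + kp * 1 by omega, h.P_add]
      have h4 := h.wrap_q (kp + K) (kp + j) (by omega) (by omega) (by omega) (by omega)
      push_cast
      linarith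
    · rw [ble_t hge]
      show Sat kp km (setB (updB kp j m K st) (kp + K) (m - 1)) x w
      apply setB_sat hsat
      have h2 : P x kp m ≤ P x kp (m - 1 + 1) := h.P_mono (by omega)
      exact le_trans (h.mono_q _ _ (by omega) (by omega) (by omega)) (le_trans hx h2)

/-! ### the tree -/

lemma inf_W {i c : ℕ} (hc : c < 1024) (h1 : Inf kp km (wl st i c)) (h2 : Inf kp km (wr st i c)) :
    Inf kp km st := by
  intro x w h hs
  rcases le_total (1024 * w i) c with hh | hh
  · exact h1 x w h (wl_sat hs fun _ => hh)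
  · exact h2 x w h (wr_sat hs hc fun _ => hh)

lemma inf_O {j m : ℕ} (hj : j < km) (hm : m < 32) (h1 : Inf kp km (updB kp j m km st))
    (h2 : Inf kp km (updA kp j m km st)) : Inf kp km st := by
  intro x w h hs
  rcases le_total (x (kp + j)) (P x kp m) with hh | hh
  · exact h1 x w h (updB_sat h hs hj hh km le_rfl)
  · exact h2 x w h (updA_sat h hs hj hm hh km le_rfl)

lemma land1023 (y : ℕ) : Nat.land y 1023 < 1024 := by
  have h : Nat.land y 1023 = y % 2 ^ 10 := land_mask _ 10
  rw [h]; exact Nat.mod_lt _ (by norm_num)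

lemma land31 (y : ℕ) : Nat.land y 31 < 32 := by
  have h : Nat.land y 31 = y % 2 ^ 5 := land_mask _ 5
  rw [h]; exact Nat.mod_lt _ (by norm_num)

theorem chk_sound {A K S : ℕ} (hn : n = kp + km) (hA : ∀ k < K, Inf kp km (getSt A k))
    (fuel : ℕ) : ∀ pos st : ℕ, chk A K S kp km n fuel pos st ≠ 0 → Inf kp km st := by
  induction fuel with
  | zero => intro pos st h; exact absurd rfl h
  | succ f ih =>
    intro pos st h
    have h1 : chk A K S kp km n (f + 1) pos st =
      force (Nat.land (Nat.shiftRight S pos) 18446744073709551615) fun H =>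
        node A K kp km n (chk A K S kp km n f) pos st H := rfl
    rw [h1, force_eq] at h
    generalize Nat.land (Nat.shiftRight S pos) 18446744073709551615 = H at h
    unfold node at h
    cases hb0 : Nat.beq (Nat.land H 3) 0 with
    | true => rw [hb0] at h; exact leaf_sound hn h
    | false =>
      rw [hb0] at h
      cases hb1 : Nat.beq (Nat.land H 3) 1 with
      | true =>
        rw [hb1] at h
        change nodeW (chk A K S kp km n f) pos st (Nat.land (Nat.shiftRight H 2) 15)
          (Nat.land (Nat.shiftRight H 6) 1023) ≠ 0 at h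
        have hc := land1023 (Nat.shiftRight H 6)
        generalize Nat.land (Nat.shiftRight H 6) 1023 = c at h hc
        generalize Nat.land (Nat.shiftRight H 2) 15 = i at h
        unfold nodeW at h
        rw [force_eq] at h
        cases hb2 : Nat.beq (chk A K S kp km n f (Nat.add pos 16) (wl st i c)) 0 with
        | true => rw [hb2] at h; exact absurd rfl h
        | false =>
          rw [hb2] at h
          rw [force_eq] at h
          have h3 := Nat.ne_of_beq_eq_false hb2
          exact inf_W hc (ih _ _ h3) (ih _ _ h)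
      | false =>
        rw [hb1] at h
        cases hb2 : Nat.beq (Nat.land H 3) 2 with
        | true =>
          rw [hb2] at h
          change nodeO kp km (chk A K S kp km n f) pos st (Nat.land (Nat.shiftRight H 2) 15)
            (Nat.land (Nat.shiftRight H 6) 31) ≠ 0 at h
          have hm := land31 (Nat.shiftRight H 6)
          generalize Nat.land (Nat.shiftRight H 6) 31 = m at h hm
          generalize Nat.land (Nat.shiftRight H 2) 15 = j at h
          unfold nodeO at h
          cases hb3 : Nat.ble (Nat.succ j) km with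
          | false => rw [hb3] at h; exact absurd rfl h
          | true =>
            rw [hb3] at h
            change (force (chk A K S kp km n f (Nat.add pos 16) (updB kp j m km st)) fun r =>
              (Bool.rec (motive := fun _ => ℕ) (force (updA kp j m km st) fun s =>
                chk A K S kp km n f r s) 0 (Nat.beq r 0) : ℕ)) ≠ 0 at h
            rw [force_eq] at h
            cases hb4 : Nat.beq (chk A K S kp km n f (Nat.add pos 16) (updB kp j m km st)) 0 with
            | true => rw [hb4] at h; exact absurd rfl h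
            | false =>
              rw [hb4] at h
              rw [force_eq] at h
              have h3 := Nat.ne_of_beq_eq_false hb4
              exact inf_O (Nat.le_of_ble_eq_true hb3) hm (ih _ _ h3) (ih _ _ h)
        | false =>
          rw [hb2] at h
          change cite A K pos st (Nat.land (Nat.shiftRight H 2) 16383) ≠ 0 at h
          generalize Nat.land (Nat.shiftRight H 2) 16383 = k at h
          unfold cite at h
          cases hb3 : Nat.ble (Nat.succ k) K with
          | false => rw [hb3] at h; exact absurd rfl h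
          | true =>
            rw [hb3] at h
            cases hb4 : Nat.beq st (getSt A k) with
            | false => rw [hb4] at h; exact absurd rfl h
            | true =>
              have h5 := Nat.eq_of_beq_eq_true hb4
              rw [h5]
              exact hA k (Nat.le_of_ble_eq_true hb3)

/-- the form in which the chunks are checked -/
theorem chunk_sound {S fuel pos st : ℕ}
    (h : Nat.ble 1 (chk 0 0 S kp km (Nat.add kp km) fuel pos st) = true) : Inf kp km st := by
  refine chk_sound (A := 0) (K := 0) (S := S) (n := Nat.add kp km) rfl (fun k hk => absurd hk (by omega)) fuel pos st ?_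
  have := Nat.le_of_ble_eq_true h
  omega

theorem top_sound {A K S fuel pos st : ℕ}
    (hA : ∀ k < K, Inf kp km (getSt A k))
    (h : Nat.ble 1 (chk A K S kp km (Nat.add kp km) fuel pos st) = true) : Inf kp km st := by
  refine chk_sound (A := A) (K := K) (S := S) (n := Nat.add kp km) rfl hA fuel pos st ?_
  have := Nat.le_of_ble_eq_true h
  omega

end Petty158
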