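import Mathlib
import Pool.Agent.W_158c65_h48.Sound
/-! From families of points on two circles to configurations. -/
set_option autoImplicit false
namespace Petty158

open Real

/-- A family of upper points `A` and lower points `B` with angles `θ` and weights `w`. -/
structure Fam {ι : Type} (θ w : ι → ℝ) (A B : Finset ι) : Prop where
  wA0 : ∀ a ∈ A, 0 ≤ w a
  wB0 : ∀ a ∈ B, 0 ≤ w a
  wA1 : ∀ a ∈ A, w a ≤ 1 / 2
  wB1 : ∀ a ∈ B, w a ≤ 1 / 2
  sA : ∀ a ∈ A, ∀ b ∈ A, a ≠ b →
    cos (θ b - θ a) ≤ 2 * max (w a * (2 - w b)) (w b * (2 - w a)) - 1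
  sB : ∀ a ∈ B, ∀ b ∈ B, a ≠ b →
    cos (θ b - θ a) ≤ 2 * max (w a * (2 - w b)) (w b * (2 - w a)) - 1
  op : ∀ a ∈ A, ∀ b ∈ B, cos (θ b - θ a) ≤ 1 - 2 * (w a * w b)

variable {ι : Type} {θ w : ι → ℝ} {A B : Finset ι}

lemma Fam.swap (h : Fam θ w A B) : Fam θ w B A where
  wA0 := h.wB0
  wB0 := h.wA0
  wA1 := h.wB1
  wB1 := h.wA1
  sA := h.sB
  sB := h.sA
  op := fun a ha b hb => by
    rw [← cos_neg, neg_sub, mul_comm (w a)]
    exact h.op b hb a ha

lemma Fam.refl (h : Fam θ w A B) : Fam (fun a => - θ a) w A B where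
  wA0 := h.wA0
  wB0 := h.wB0
  wA1 := h.wA1
  wB1 := h.wB1
  sA := fun a ha b hb hab => by
    have := h.sA a ha b hb hab
    rw [← cos_neg] at this
    rwa [show -θ b - -θ a = -(θ b - θ a) by ring]
  sB := fun a ha b hb hab => by
    have := h.sB a ha b hb hab
    rw [← cos_neg] at this
    rwa [show -θ b - -θ a = -(θ b - θ a) by ring]
  op := fun a ha b hb => by
    have := h.op a ha b hb
    rw [← cos_neg] at this
    rwa [show -θ b - -θ a = -(θ b - θ a) by ring]

lemma Fam.subset (h : Fam θ w A B) {A' B' : Finset ι} (hA : A' ⊆ A) (hB : B' ⊆ B) :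
    Fam θ w A' B' where
  wA0 := fun a ha => h.wA0 a (hA ha)
  wB0 := fun a ha => h.wB0 a (hB ha)
  wA1 := fun a ha => h.wA1 a (hA ha)
  wB1 := fun a ha => h.wB1 a (hB ha)
  sA := fun a ha b hb hab => h.sA a (hA ha) b (hA hb) hab
  sB := fun a ha b hb hab => h.sB a (hB ha) b (hB hb) hab
  op := fun a ha b hb => h.op a (hA ha) b (hB hb)

/-- sorted enumeration starting at a given minimal element -/
lemma exists_enum (A : Finset ι) (f : ι → ℝ) (hf : ∀ a, 0 ≤ f a) {m : ι} (hm : m ∈ A)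
    (hfm : f m = 0) : ∃ e : ℕ → ι, (∀ i < A.card, e i ∈ A) ∧
      (∀ i j, i < A.card → j < A.card → e i = e j → i = j) ∧ e 0 = m ∧
      ∀ i j, i ≤ j → j < A.card → f (e i) ≤ f (e j) := by
  classical
  let B := A.erase m
  have hcard : B.card + 1 = A.card := Finset.card_erase_add_one hm
  let σ := Tuple.sort (fun i : Fin B.card => f (B.equivFin.symm i))
  have hmono : Monotone ((fun i : Fin B.card => f (B.equivFin.symm i)) ∘ σ) :=
    Tuple.monotone_sort _
  let e : ℕ → ι := fun i => if h : 1 ≤ i ∧ i - 1 < B.card then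
    (B.equivFin.symm (σ ⟨i - 1, h.2⟩) : ι) else m
  have he0 : e 0 = m := by simp [e]
  have hes : ∀ i, 1 ≤ i → ∀ h : i - 1 < B.card,
      e i = (B.equivFin.symm (σ ⟨i - 1, h⟩) : ι) := by
    intro i h1 h2
    simp only [e]
    rw [dif_pos ⟨h1, h2⟩]
  have hmem : ∀ i, 1 ≤ i → i < A.card → e i ∈ B := by
    intro i h1 h2
    rw [hes i h1 (by omega)]
    exact (B.equivFin.symm _).2
  refine ⟨e, ?_, ?_, he0, ?_⟩
  · intro i hi
    rcases Nat.eq_zero_or_pos i with h | h
    · rw [h, he0]; exact hm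
    · exact Finset.mem_of_mem_erase (hmem i h hi)
  · intro i j hi hj hij
    rcases Nat.eq_zero_or_pos i with h | h
    · rcases Nat.eq_zero_or_pos j with h' | h'
      · omega
      · exfalso
        rw [h, he0] at hij
        have := hmem j h' hj
        rw [← hij] at this
        exact Finset.notMem_erase m A this
    · rcases Nat.eq_zero_or_pos j with h' | h'
      · exfalso
        rw [h', he0] at hij
        have := hmem i h hi
        rw [hij] at this
        exact Finset.notMem_erase m A this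
      · rw [hes i h (by omega), hes j h' (by omega)] at hij
        have h1 := Subtype.ext hij
        have h2 := σ.injective (B.equivFin.symm.injective h1)
        have h3 : i - 1 = j - 1 := congrArg Fin.val h2
        omega
  · intro i j hij hj
    rcases Nat.eq_zero_or_pos i with h | h
    · rw [h, he0, hfm]; exact hf _
    · rw [hes i h (by omega), hes j (by omega) (by omega)]
      exact hmono (show (⟨i - 1, by omega⟩ : Fin B.card) ≤ ⟨j - 1, by omega⟩ from by
        show i - 1 ≤ j - 1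
        omega)

/-- angle of `a` measured from `m`, in `[0, 2π)` -/
noncomputable def ang (θ : ι → ℝ) (m a : ι) : ℝ := toIcoMod Real.two_pi_pos 0 (θ a - θ m)

lemma ang_nonneg (θ : ι → ℝ) (m a : ι) : 0 ≤ ang θ m a := (toIcoMod_mem_Ico' _ _).1
lemma ang_lt (θ : ι → ℝ) (m a : ι) : ang θ m a < 2 * π := (toIcoMod_mem_Ico' _ _).2
lemma ang_self (θ : ι → ℝ) (m : ι) : ang θ m m = 0 := by
  unfold ang; rw [sub_self]; exact toIcoMod_apply_left _ _

lemma ang_eq (θ : ι → ℝ) (m a : ι) : ∃ k : ℤ, ang θ m a = θ a - θ m + 2 * π * k := by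
  refine ⟨- toIcoDiv Real.two_pi_pos 0 (θ a - θ m), ?_⟩
  unfold ang
  rw [← self_sub_toIcoDiv_zsmul Real.two_pi_pos 0 (θ a - θ m)]
  push_cast
  rw [zsmul_eq_mul]
  ring

lemma cos_ang_sub (θ : ι → ℝ) (m a b : ι) : cos (ang θ m b - ang θ m a) = cos (θ b - θ a) := by
  obtain ⟨k, hk⟩ := ang_eq θ m a
  obtain ⟨l, hl⟩ := ang_eq θ m b
  rw [hk, hl, show θ b - θ m + 2 * π * l - (θ a - θ m + 2 * π * k) =
    (θ b - θ a) + 2 * π * ((l - k : ℤ)) by push_cast; ring]
  exact cos_turn _ _

/-- check of a root state -/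
def rootOK (kp km st : ℕ) : Bool :=
  decide (∀ v < kp + km, rlo (R st v) = 0 ∧ (rhi (R st v) = 512 ∨ (v = 0 ∨ v = kp)) ∧
    ra (R st v) = 0 ∧ (rb (R st v) = 2 * kp - 1 ∨ v < kp ∨ (v = kp ∧ rb (R st v) = kp - 1)))

lemma max_zero_left {a b : ℝ} (h0 : 0 ≤ a) (hab : a ≤ b) :
    max (a * (2 - b)) (b * (2 - a)) ≤ max (0 * (2 - b)) (b * (2 - 0)) := by
  have h1 : max (0 * (2 - b)) (b * (2 - 0)) = b * 2 := by
    rw [zero_mul, sub_zero, max_eq_right]; linarith
  rw [h1]
  apply max_le <;> nlinarith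

theorem fam_false_aux [DecidableEq ι] (h : Fam θ w A B) {kp km st : ℕ} (hA : A.card = kp)
    (hB : B.card = km) (hst : rootOK kp km st = true) {p : ι} (hp : p ∈ A)
    (hpm : ∀ a ∈ A, w p ≤ w a) (hq : 0 < km → ∃ q ∈ B, (∀ b ∈ B, w q ≤ w b) ∧
      ang θ p q ≤ π) (hInf : Inf kp km st) : False := by
  have hkp : 0 < kp := by rw [← hA]; exact Finset.card_pos.mpr ⟨p, hp⟩
  obtain ⟨e, he1, he2, he3, he4⟩ := exists_enum A (ang θ p) (ang_nonneg θ p) hp (ang_self θ p)
  rw [hA] at he1 he2 he4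
  -- the lower enumeration
  obtain ⟨q, f, hf0, hf1, hf2, hf3, hf4, hf5⟩ : ∃ (q : ι) (f : ℕ → ι),
      (0 < km → q ∈ B ∧ (∀ b ∈ B, w q ≤ w b) ∧ ang θ p q ≤ π) ∧
      (∀ i < km, f i ∈ B) ∧ (∀ i j, i < km → j < km → f i = f j → i = j) ∧
      (0 < km → f 0 = q) ∧ (∀ i j, i ≤ j → j < km → ang θ q (f i) ≤ ang θ q (f j)) ∧ True := by
    rcases Nat.eq_zero_or_pos km with h0 | h0
    · refine ⟨p, fun _ => p, ?_, ?_, ?_, ?_, ?_, trivial⟩ <;> intros <;> omega
    · obtain ⟨q, hq1, hq2, hq3⟩ := hq h0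
      obtain ⟨f, a1, a2, a3, a4⟩ := exists_enum B (ang θ q) (ang_nonneg θ q) hq1 (ang_self θ q)
      rw [hB] at a1 a2 a4
      exact ⟨q, f, fun _ => ⟨hq1, hq2, hq3⟩, a1, a2, fun _ => a3, a4, trivial⟩
  let x : ℕ → ℝ := fun v => if v < kp then ang θ p (e v) else ang θ p q + ang θ q (f (v - kp))
  let w' : ℕ → ℝ := fun v => if v < kp then (if v = 0 then 0 else w (e v)) else
    (if v = kp then 0 else w (f (v - kp)))
  have hxp : ∀ v, v < kp → x v = ang θ p (e v) := fun v hv => by simp only [x]; rw [if_pos hv]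
  have hxq : ∀ v, kp ≤ v → x v = ang θ p q + ang θ q (f (v - kp)) := fun v hv => by
    simp only [x]; rw [if_neg (by omega)]
  have hx0 : x 0 = 0 := by rw [hxp 0 hkp, he3]; exact ang_self θ p
  have hw0 : w' 0 = 0 := by simp only [w']; rw [if_pos hkp]; simp
  have hwkp : w' kp = 0 := by simp only [w']; rw [if_neg (by omega)]; simp
  have hwp : ∀ v, v < kp → v ≠ 0 → w' v = w (e v) := fun v hv hv0 => by
    simp only [w']; rw [if_pos hv, if_neg hv0]
  have hwq : ∀ v, kp ≤ v → v ≠ kp → w' v = w (f (v - kp)) := fun v hv hv0 => by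
    simp only [w']; rw [if_neg (by omega), if_neg hv0]
  have hxkp : 0 < km → x kp = ang θ p q := fun h0 => by
    rw [hxq kp le_rfl, Nat.sub_self, hf3 h0, ang_self, add_zero]
  have hwpe : ∀ v, v < kp → 0 ≤ w' v ∧ w' v ≤ w (e v) := by
    intro v hv
    by_cases hv0 : v = 0
    · subst hv0; rw [hw0]; exact ⟨le_rfl, h.wA0 _ (he1 0 hv)⟩
    · rw [hwp v hv hv0]; exact ⟨h.wA0 _ (he1 v hv), le_rfl⟩
  have hwqe : ∀ v, kp ≤ v → v < kp + km → 0 ≤ w' v ∧ w' v ≤ w (f (v - kp)) := by
    intro v hv hv'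
    by_cases hv0 : v = kp
    · subst hv0; rw [hwkp]; exact ⟨le_rfl, h.wB0 _ (hf1 _ (by omega))⟩
    · rw [hwq v hv hv0]; exact ⟨h.wB0 _ (hf1 _ (by omega)), le_rfl⟩
  have hcq : ∀ v u, kp ≤ v → kp ≤ u → cos (x u - x v) = cos (θ (f (u - kp)) - θ (f (v - kp))) := by
    intro v u hv hu
    rw [hxq v hv, hxq u hu, add_sub_add_left_eq_sub]
    exact cos_ang_sub θ q _ _
  have hpi := Real.pi_pos
  have cfg : Cfg kp km x w' := by
    refine ⟨hkp, ?_, ?_, hw0, fun _ => hwkp, ?_, ?_, ?_, ?_, ?_, ?_, ?_, ?_, ?_, ?_⟩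
    · intro v hv
      rcases Nat.lt_or_ge v kp with h1 | h1
      · exact (hwpe v h1).1
      · exact (hwqe v h1 hv).1
    · intro v hv
      rcases Nat.lt_or_ge v kp with h1 | h1
      · exact le_trans (hwpe v h1).2 (h.wA1 _ (he1 v h1))
      · exact le_trans (hwqe v h1 hv).2 (h.wB1 _ (hf1 _ (by omega)))
    · intro v u hvu hu
      rw [hxp v (by omega), hxp u hu]
      exact he4 v u hvu hu
    · intro v u hv hu
      rw [hxp v hv, hxp u hu]
      have := ang_lt θ p (e v)
      have := ang_nonneg θ p (e u)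
      linarith
    · intro v u hv hvu hu
      rw [hxq v hv, hxq u (by omega)]
      have := hf4 (v - kp) (u - kp) (by omega) (by omega)
      linarith
    · intro v u hv hv' hu hu'
      rw [hxq v hv, hxq u hu]
      have := ang_lt θ q (f (v - kp))
      have := ang_nonneg θ q (f (u - kp))
      linarith
    · intro h0
      rw [hxkp h0, hx0]
      have := (hf0 h0).2.2
      linarith
    · intro v hv hv'
      rw [hx0, hxq v hv]
      have := ang_nonneg θ q (f (v - kp))
      have := ang_nonneg θ p q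
      linarith
    · intro v hv hv'
      rw [hx0, hxq v hv]
      have := ang_lt θ q (f (v - kp))
      have := ang_lt θ p q
      linarith
    · intro v u hv hu hvu
      have hne : e v ≠ e u := fun hh => hvu (he2 v u hv hu hh)
      have hc := h.sA (e v) (he1 v hv) (e u) (he1 u hu) hne
      rw [hxp v hv, hxp u hu, cos_ang_sub]
      refine le_trans hc ?_
      have hmain : max (w (e v) * (2 - w (e u))) (w (e u) * (2 - w (e v))) ≤
          max (w' v * (2 - w' u)) (w' u * (2 - w' v)) := by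
        by_cases hv0 : v = 0
        · subst hv0
          rw [hw0, hwp u hu (Ne.symm hvu)]
          refine max_zero_left (h.wA0 _ (he1 _ hv)) ?_
          rw [he3]; exact hpm _ (he1 _ hu)
        · by_cases hu0 : u = 0
          · subst hu0
            rw [hw0, hwp v hv hv0, max_comm, max_comm (w (e v) * (2 - 0))]
            refine max_zero_left (h.wA0 _ (he1 _ hu)) ?_
            rw [he3]; exact hpm _ (he1 _ hv)
          · rw [hwp v hv hv0, hwp u hu hu0]
      linarith
    · intro v u hv hv' hu hu' hvu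
      have hne : f (v - kp) ≠ f (u - kp) := fun hh => by
        have := hf2 (v - kp) (u - kp) (by omega) (by omega) hh
        omega
      have hc := h.sB _ (hf1 (v - kp) (by omega)) _ (hf1 (u - kp) (by omega)) hne
      rw [hcq v u hv hu]
      refine le_trans hc ?_
      have h0 : 0 < km := by omega
      have hmain : max (w (f (v - kp)) * (2 - w (f (u - kp)))) (w (f (u - kp)) *
          (2 - w (f (v - kp)))) ≤ max (w' v * (2 - w' u)) (w' u * (2 - w' v)) := by
        by_cases hv0 : v = kp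
        · subst hv0
          rw [hwkp, hwq u hu (Ne.symm hvu), Nat.sub_self]
          refine max_zero_left (h.wB0 _ (hf1 _ (by omega))) ?_
          rw [hf3 h0]; exact (hf0 h0).2.1 _ (hf1 _ (by omega))
        · by_cases hu0 : u = kp
          · subst hu0
            rw [hwkp, hwq v hv hv0, Nat.sub_self, max_comm, max_comm (w (f (v - u)) * (2 - 0))]
            refine max_zero_left (h.wB0 _ (hf1 _ (by omega))) ?_
            rw [hf3 h0]; exact (hf0 h0).2.1 _ (hf1 _ (by omega))
          · rw [hwq v hv hv0, hwq u hu hu0]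
      linarith
    · intro v u hv hu hu'
      have hc := h.op _ (he1 v hv) _ (hf1 (u - kp) (by omega))
      have hcos : cos (x u - x v) = cos (θ (f (u - kp)) - θ (e v)) := by
        rw [hxq u hu, hxp v hv]
        obtain ⟨k1, hk1⟩ := ang_eq θ p q
        obtain ⟨k2, hk2⟩ := ang_eq θ q (f (u - kp))
        obtain ⟨k3, hk3⟩ := ang_eq θ p (e v)
        rw [hk1, hk2, hk3, show θ q - θ p + 2 * π * k1 + (θ (f (u - kp)) - θ q + 2 * π * k2) -
          (θ (e v) - θ p + 2 * π * k3) = (θ (f (u - kp)) - θ (e v)) +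
          2 * π * ((k1 + k2 - k3 : ℤ)) by push_cast; ring]
        exact cos_turn _ _
      rw [hcos]
      have h1 := hwpe v hv
      have h2 := hwqe u hu hu'
      have h3 : w' v * w' u ≤ w (e v) * w (f (u - kp)) :=
        mul_le_mul h1.2 h2.2 h2.1 (le_trans h1.1 h1.2)
      linarith
  apply hInf x w' cfg
  unfold rootOK at hst
  have hroot := of_decide_eq_true hst
  refine ⟨fun v hv => ?_, fun v hv => ?_, fun v hv hv' => ?_, fun v hv hv' => ?_⟩
  · obtain ⟨r1, _, _, _⟩ := hroot v hv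
    rw [r1]; push_cast
    have := cfg.w_nonneg v hv
    linarith
  · obtain ⟨_, r2, _, _⟩ := hroot v hv
    rcases r2 with r2 | r2 | r2
    · rw [r2]; push_cast
      have := cfg.w_le v hv
      linarith
    · rw [r2, hw0]; simp
    · rw [r2, hwkp]; simp
  · obtain ⟨_, _, r3, _⟩ := hroot v hv'
    rw [r3, P_lt x hkp]
    exact cfg.q_ge v hv hv'
  · obtain ⟨_, _, _, r4⟩ := hroot v hv'
    rcases r4 with r4 | r4 | ⟨r4, r5⟩
    · rw [r4, show 2 * kp - 1 + 1 = 0 + kp * 2 by omega, cfg.P_add, P_lt x hkp]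
      have := cfg.q_le v hv hv'
      push_cast
      linarith
    · omega
    · rw [r5, show kp - 1 + 1 = 0 + kp * 1 by omega, cfg.P_add, P_lt x hkp, r4]
      have := cfg.q0 (by omega)
      push_cast
      linarith

theorem fam_false [DecidableEq ι] (h : Fam θ w A B) {kp km st : ℕ} (hA : A.card = kp)
    (hB : B.card = km) (hkp : 0 < kp) (hst : rootOK kp km st = true) (hInf : Inf kp km st) :
    False := by
  obtain ⟨p, hp, hpm⟩ := Finset.exists_min_image A w (Finset.card_pos.mp (hA ▸ hkp))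
  rcases Nat.eq_zero_or_pos km with h0 | h0
  · exact fam_false_aux h hA hB hst hp hpm (fun h1 => by omega) hInf
  obtain ⟨q, hq, hqm⟩ := Finset.exists_min_image B w (Finset.card_pos.mp (hB ▸ h0))
  rcases le_total (ang θ p q) π with h1 | h1
  · exact fam_false_aux h hA hB hst hp hpm (fun _ => ⟨q, hq, hqm, h1⟩) hInf
  · refine fam_false_aux h.refl hA hB hst hp hpm (fun _ => ⟨q, hq, hqm, ?_⟩) hInf
    obtain ⟨k, hk⟩ := ang_eq θ p q
    obtain ⟨l, hl⟩ := ang_eq (fun a => - θ a) p q
    have h2 := ang_lt (fun a => - θ a) p q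
    have h3 := ang_nonneg (fun a => - θ a) p q
    have h4 := ang_lt θ p q
    have hpi := Real.pi_pos
    -- the sum of the two angles is an integer multiple of 2π, less than 4π
    have h5 : ang (fun a => - θ a) p q + ang θ p q = 2 * π * ((k + l : ℤ)) := by
      rw [hk, hl]; push_cast; ring
    have h6 : (k + l : ℤ) ≤ 1 := by
      by_contra hcon
      have : (2 : ℤ) ≤ k + l := by omega
      have h7 : (2 : ℝ) ≤ ((k + l : ℤ) : ℝ) := by exact_mod_cast this
      nlinarith
    have h7 : ((k + l : ℤ) : ℝ) ≤ 1 := by exact_mod_cast h6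
    nlinarith

end Petty158
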