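import Mathlib
import Pool.Agent.W_158c65_h48.Fam
import Pool.Agent.W_158c65_h48.Defs
/-! The Petty space and the reduction of the upper bound. -/
set_option autoImplicit false
namespace Petty158

open Real

lemma norm_petty (v : Petty) : ‖v‖ = ‖v.fst‖ + |v.snd| := by
  rw [WithLp.prod_norm_eq_of_L1, Real.norm_eq_abs]

/-- the angle of the planar part -/
noncomputable def pang (v : Petty) : ℝ := Complex.arg ⟨v.fst 0, v.fst 1⟩

lemma plane_norm (y : EuclideanSpace ℝ (Fin 2)) : ‖y‖ = ‖(⟨y 0, y 1⟩ : ℂ)‖ := by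
  have h1 : ‖y‖ ^ 2 = ‖(⟨y 0, y 1⟩ : ℂ)‖ ^ 2 := by
    rw [EuclideanSpace.real_norm_sq_eq, Fin.sum_univ_two, ← Complex.normSq_eq_norm_sq,
      Complex.normSq_mk]
    ring
  exact (pow_left_inj₀ (norm_nonneg _) (norm_nonneg _) two_ne_zero).mp h1

lemma pang_cos (v : Petty) : v.fst 0 = ‖v.fst‖ * cos (pang v) := by
  rw [plane_norm]; unfold pang
  exact (Complex.norm_mul_cos_arg (⟨v.fst 0, v.fst 1⟩ : ℂ)).symm

lemma pang_sin (v : Petty) : v.fst 1 = ‖v.fst‖ * sin (pang v) := by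
  rw [plane_norm]; unfold pang
  exact (Complex.norm_mul_sin_arg (⟨v.fst 0, v.fst 1⟩ : ℂ)).symm

lemma dist_sq (u v : Petty) : ‖u.fst - v.fst‖ ^ 2 =
    ‖u.fst‖ ^ 2 + ‖v.fst‖ ^ 2 - 2 * ‖u.fst‖ * ‖v.fst‖ * cos (pang v - pang u) := by
  rw [EuclideanSpace.real_norm_sq_eq, Fin.sum_univ_two]
  have e0 : (u.fst - v.fst) 0 = u.fst 0 - v.fst 0 := rfl
  have e1 : (u.fst - v.fst) 1 = u.fst 1 - v.fst 1 := rfl
  rw [e0, e1, cos_sub]
  have hu0 := pang_cos u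
  have hu1 := pang_sin u
  have hv0 := pang_cos v
  have hv1 := pang_sin v
  have hu := Real.sin_sq_add_cos_sq (pang u)
  have hv := Real.sin_sq_add_cos_sq (pang v)
  rw [hu0, hu1, hv0, hv1]
  generalize ‖u.fst‖ = r
  generalize ‖v.fst‖ = s
  generalize cos (pang u) = a at hu ⊢
  generalize sin (pang u) = b at hu ⊢
  generalize cos (pang v) = c at hv ⊢
  generalize sin (pang v) = d at hv ⊢
  linear_combination r ^ 2 * hu + s ^ 2 * hv

lemma same_ineq_aux {r s c D : ℝ} (hr : 1 / 2 ≤ r) (hr1 : r ≤ 1) (hs : 1 / 2 ≤ s)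
    (_ : s ≤ r)
    (hD : D ^ 2 = r ^ 2 + s ^ 2 - 2 * r * s * c) (h : 1 ≤ D + (r - s)) :
    c ≤ 2 * ((1 - 1 / (2 * r)) * (2 - (1 - 1 / (2 * s)))) - 1 := by
  have h1 : (1 - (r - s)) ^ 2 ≤ D ^ 2 := by
    apply pow_le_pow_left₀ <;> linarith
  have hr0 : 0 < r := by linarith
  have hs0 : 0 < s := by linarith
  have h2 : 2 * ((1 - 1 / (2 * r)) * (2 - (1 - 1 / (2 * s)))) - 1 - c =
      (2 * r * s * (1 - c) - (1 - 2 * (r - s))) / (2 * r * s) := by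
    field_simp
    ring
  have h3 : 0 ≤ (2 * r * s * (1 - c) - (1 - 2 * (r - s))) / (2 * r * s) := by
    apply div_nonneg _ (by positivity)
    nlinarith
  linarith

lemma same_ineq {r s c D : ℝ} (hr : 1 / 2 ≤ r) (hr1 : r ≤ 1) (hs : 1 / 2 ≤ s) (hs1 : s ≤ 1)
    (hD : D ^ 2 = r ^ 2 + s ^ 2 - 2 * r * s * c) (h : 1 ≤ D + |r - s|) :
    c ≤ 2 * max ((1 - 1 / (2 * r)) * (2 - (1 - 1 / (2 * s))))
      ((1 - 1 / (2 * s)) * (2 - (1 - 1 / (2 * r)))) - 1 := by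
  rcases le_total s r with h1 | h1
  · rw [abs_of_nonneg (by linarith)] at h
    have := same_ineq_aux hr hr1 hs h1 hD h
    have := le_max_left ((1 - 1 / (2 * r)) * (2 - (1 - 1 / (2 * s))))
      ((1 - 1 / (2 * s)) * (2 - (1 - 1 / (2 * r))))
    linarith
  · rw [abs_of_nonpos (by linarith)] at h
    have hD' : D ^ 2 = s ^ 2 + r ^ 2 - 2 * s * r * c := by rw [hD]; ring
    have := same_ineq_aux hs hs1 hr h1 hD' (by linarith)
    have := le_max_right ((1 - 1 / (2 * r)) * (2 - (1 - 1 / (2 * s))))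
      ((1 - 1 / (2 * s)) * (2 - (1 - 1 / (2 * r))))
    linarith

lemma opp_ineq {r s c D : ℝ} (hr : 1 / 2 ≤ r) (hs : 1 / 2 ≤ s)
    (hD : D ^ 2 = r ^ 2 + s ^ 2 - 2 * r * s * c) (h : 1 ≤ D + (2 - r - s)) :
    c ≤ 1 - 2 * ((1 - 1 / (2 * r)) * (1 - 1 / (2 * s))) := by
  have h1 : (r + s - 1) ^ 2 ≤ D ^ 2 := by
    apply pow_le_pow_left₀ <;> linarith
  have hr0 : 0 < r := by linarith
  have hs0 : 0 < s := by linarith
  have h2 : 1 - 2 * ((1 - 1 / (2 * r)) * (1 - 1 / (2 * s))) - c =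
      ((2 * r + 2 * s - 1) - 2 * r * s * (1 + c)) / (2 * r * s) := by
    field_simp
    ring
  have h3 : 0 ≤ ((2 * r + 2 * s - 1) - 2 * r * s * (1 + c)) / (2 * r * s) := by
    apply div_nonneg _ (by positivity)
    nlinarith
  linarith

/-- the weight of a point -/
noncomputable def wt (v : Petty) : ℝ := 1 - 1 / (2 * ‖v.fst‖)

lemma wt_nonneg {v : Petty} (h : 1 / 2 ≤ ‖v.fst‖) : 0 ≤ wt v := by
  unfold wt
  rw [sub_nonneg, div_le_one (by linarith)]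
  linarith

lemma fst_le {v : Petty} (h : ‖v‖ = 1) : ‖v.fst‖ ≤ 1 := by
  rw [norm_petty] at h
  have := abs_nonneg v.snd
  linarith

lemma wt_le {v : Petty} (h : 1 / 2 ≤ ‖v.fst‖) (h1 : ‖v‖ = 1) : wt v ≤ 1 / 2 := by
  unfold wt
  have h2 := fst_le h1
  have h3 : 1 / 2 ≤ 1 / (2 * ‖v.fst‖) := by
    apply one_div_le_one_div_of_le <;> linarith
  linarith

lemma norm_sub_petty (u v : Petty) : ‖u - v‖ = ‖u.fst - v.fst‖ + |u.snd - v.snd| := by
  rw [norm_petty]; rfl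

lemma same_pts {u v : Petty} (hu : ‖u‖ = 1) (hv : ‖v‖ = 1) (hu2 : 1 / 2 ≤ ‖u.fst‖)
    (hv2 : 1 / 2 ≤ ‖v.fst‖) (hs : (0 ≤ u.snd ∧ 0 ≤ v.snd) ∨ (u.snd < 0 ∧ v.snd < 0))
    (hd : 1 ≤ ‖u - v‖) :
    cos (pang v - pang u) ≤ 2 * max (wt u * (2 - wt v)) (wt v * (2 - wt u)) - 1 := by
  have hz : |u.snd - v.snd| = |‖u.fst‖ - ‖v.fst‖| := by
    rw [norm_petty] at hu hv
    rcases hs with ⟨h1, h2⟩ | ⟨h1, h2⟩
    · rw [abs_of_nonneg h1] at hu
      rw [abs_of_nonneg h2] at hv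
      rw [abs_sub_comm]
      congr 1; linarith
    · rw [abs_of_neg h1] at hu
      rw [abs_of_neg h2] at hv
      congr 1; linarith
  rw [norm_sub_petty, hz] at hd
  exact same_ineq hu2 (fst_le hu) hv2 (fst_le hv) (dist_sq u v) hd

lemma opp_pts {u v : Petty} (hu : ‖u‖ = 1) (hv : ‖v‖ = 1) (hu2 : 1 / 2 ≤ ‖u.fst‖)
    (hv2 : 1 / 2 ≤ ‖v.fst‖) (hs1 : 0 ≤ u.snd) (hs2 : v.snd < 0)
    (hd : 1 ≤ ‖u - v‖) : cos (pang v - pang u) ≤ 1 - 2 * (wt u * wt v) := by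
  have hz : |u.snd - v.snd| = 2 - ‖u.fst‖ - ‖v.fst‖ := by
    rw [norm_petty] at hu hv
    rw [abs_of_nonneg hs1] at hu
    rw [abs_of_neg hs2] at hv
    rw [abs_of_nonneg (by linarith)]
    linarith
  rw [norm_sub_petty, hz] at hd
  exact opp_ineq hu2 hv2 (dist_sq u v) hd

lemma small_pts {u v : Petty} (hu : ‖u‖ = 1) (hv : ‖v‖ = 1) (hu2 : ‖u.fst‖ < 1 / 2)
    (hv2 : ‖v.fst‖ < 1 / 2) (hs : (0 ≤ u.snd ∧ 0 ≤ v.snd) ∨ (u.snd < 0 ∧ v.snd < 0)) :
    ‖u - v‖ < 1 := by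
  have hz : |u.snd - v.snd| = |‖u.fst‖ - ‖v.fst‖| := by
    rw [norm_petty] at hu hv
    rcases hs with ⟨h1, h2⟩ | ⟨h1, h2⟩
    · rw [abs_of_nonneg h1] at hu
      rw [abs_of_nonneg h2] at hv
      rw [abs_sub_comm]
      congr 1; linarith
    · rw [abs_of_neg h1] at hu
      rw [abs_of_neg h2] at hv
      congr 1; linarith
  rw [norm_sub_petty, hz]
  have h1 := norm_sub_le u.fst v.fst
  rcases le_total ‖u.fst‖ ‖v.fst‖ with h | h
  · rw [abs_of_nonpos (by linarith)]; linarith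
  · rw [abs_of_nonneg (by linarith)]; linarith

/-- what has to be checked by computation -/
structure Checked : Prop where
  c76 : ∃ st, rootOK 7 6 st = true ∧ Inf 7 6 st
  c85 : ∃ st, rootOK 8 5 st = true ∧ Inf 8 5 st
  c94 : ∃ st, rootOK 9 4 st = true ∧ Inf 9 4 st
  c100 : ∃ st, rootOK 10 0 st = true ∧ Inf 10 0 st

lemma Checked.fam {ι : Type} [DecidableEq ι] (hc : Checked) {θ w : ι → ℝ} {A B : Finset ι}
    (h : Fam θ w A B) (hcard : 13 ≤ A.card + B.card) (hle : B.card ≤ A.card) : False := by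
  have key : ∀ kp km : ℕ, 0 < kp → kp ≤ A.card → km ≤ B.card →
      (∃ st, rootOK kp km st = true ∧ Inf kp km st) → False := by
    rintro kp km h0 h1 h2 ⟨st, h3, h4⟩
    obtain ⟨A', hA', hA2⟩ := Finset.exists_subset_card_eq h1
    obtain ⟨B', hB', hB2⟩ := Finset.exists_subset_card_eq h2
    exact fam_false (h.subset hA' hB') hA2 hB2 h0 h3 h4
  rcases Nat.lt_or_ge 9 A.card with h1 | h1
  · exact key 10 0 (by norm_num) (by omega) (by omega) hc.c100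
  rcases Nat.lt_or_ge 8 A.card with h2 | h2
  · exact key 9 4 (by norm_num) (by omega) (by omega) hc.c94
  rcases Nat.lt_or_ge 7 A.card with h3 | h3
  · exact key 8 5 (by norm_num) (by omega) (by omega) hc.c85
  · exact key 7 6 (by norm_num) (by omega) (by omega) hc.c76

theorem Checked.upper (hc : Checked) (F : Finset Petty) (h1 : ∀ u ∈ F, ‖u‖ = 1)
    (h2 : ∀ u ∈ F, ∀ v ∈ F, u ≠ v → 1 ≤ ‖u - v‖) : F.card ≤ 14 := by
  classical
  by_contra hcon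
  push Not at hcon
  let G := F.filter fun v => 1 / 2 ≤ ‖v.fst‖
  let L := F.filter fun v => ¬ 1 / 2 ≤ ‖v.fst‖
  have hsplit : G.card + L.card = F.card := Finset.card_filter_add_card_filter_not _
  let L1 := L.filter fun v => 0 ≤ v.snd
  let L2 := L.filter fun v => ¬ 0 ≤ v.snd
  have hL : L1.card + L2.card = L.card := Finset.card_filter_add_card_filter_not _
  have hL1 : L1.card ≤ 1 := by
    rw [Finset.card_le_one]
    intro a ha b hb
    by_contra hab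
    obtain ⟨ha1, ha2⟩ := Finset.mem_filter.mp ha
    obtain ⟨ha3, ha4⟩ := Finset.mem_filter.mp ha1
    obtain ⟨hb1, hb2⟩ := Finset.mem_filter.mp hb
    obtain ⟨hb3, hb4⟩ := Finset.mem_filter.mp hb1
    have h3 := small_pts (h1 a ha3) (h1 b hb3) (not_le.mp ha4) (not_le.mp hb4)
      (Or.inl ⟨ha2, hb2⟩)
    have h4 := h2 a ha3 b hb3 hab
    linarith
  have hL2 : L2.card ≤ 1 := by
    rw [Finset.card_le_one]
    intro a ha b hb
    by_contra hab
    obtain ⟨ha1, ha2⟩ := Finset.mem_filter.mp ha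
    obtain ⟨ha3, ha4⟩ := Finset.mem_filter.mp ha1
    obtain ⟨hb1, hb2⟩ := Finset.mem_filter.mp hb
    obtain ⟨hb3, hb4⟩ := Finset.mem_filter.mp hb1
    have h3 := small_pts (h1 a ha3) (h1 b hb3) (not_le.mp ha4) (not_le.mp hb4)
      (Or.inr ⟨not_le.mp ha2, not_le.mp hb2⟩)
    have h4 := h2 a ha3 b hb3 hab
    linarith
  let A := G.filter fun v => 0 ≤ v.snd
  let B := G.filter fun v => ¬ 0 ≤ v.snd
  have hAB : A.card + B.card = G.card := Finset.card_filter_add_card_filter_not _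
  have hAm : ∀ a ∈ A, ‖a‖ = 1 ∧ 1 / 2 ≤ ‖a.fst‖ ∧ 0 ≤ a.snd ∧ a ∈ F := by
    intro a ha
    obtain ⟨ha1, ha2⟩ := Finset.mem_filter.mp ha
    obtain ⟨ha3, ha4⟩ := Finset.mem_filter.mp ha1
    exact ⟨h1 a ha3, ha4, ha2, ha3⟩
  have hBm : ∀ a ∈ B, ‖a‖ = 1 ∧ 1 / 2 ≤ ‖a.fst‖ ∧ a.snd < 0 ∧ a ∈ F := by
    intro a ha
    obtain ⟨ha1, ha2⟩ := Finset.mem_filter.mp ha
    obtain ⟨ha3, ha4⟩ := Finset.mem_filter.mp ha1
    exact ⟨h1 a ha3, ha4, not_le.mp ha2, ha3⟩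
  have hfam : Fam pang wt A B := by
    refine ⟨fun a ha => wt_nonneg (hAm a ha).2.1, fun a ha => wt_nonneg (hBm a ha).2.1,
      fun a ha => wt_le (hAm a ha).2.1 (hAm a ha).1, fun a ha => wt_le (hBm a ha).2.1 (hBm a ha).1,
      ?_, ?_, ?_⟩
    · intro a ha b hb hab
      obtain ⟨a1, a2, a3, a4⟩ := hAm a ha
      obtain ⟨b1, b2, b3, b4⟩ := hAm b hb
      exact same_pts a1 b1 a2 b2 (Or.inl ⟨a3, b3⟩) (h2 a a4 b b4 hab)
    · intro a ha b hb hab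
      obtain ⟨a1, a2, a3, a4⟩ := hBm a ha
      obtain ⟨b1, b2, b3, b4⟩ := hBm b hb
      exact same_pts a1 b1 a2 b2 (Or.inr ⟨a3, b3⟩) (h2 a a4 b b4 hab)
    · intro a ha b hb
      obtain ⟨a1, a2, a3, a4⟩ := hAm a ha
      obtain ⟨b1, b2, b3, b4⟩ := hBm b hb
      have hab : a ≠ b := fun hh => by rw [hh] at a3; linarith
      exact opp_pts a1 b1 a2 b2 a3 b3 (h2 a a4 b b4 hab)
  rcases le_total B.card A.card with hle | hle
  · exact hc.fam hfam (by omega) hle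
  · exact hc.fam hfam.swap (by omega) hle

theorem Checked.hadwiger_le (hc : Checked) : hadwiger Petty ≤ 14 := by
  unfold hadwiger
  apply iSup_le
  rintro ⟨S, hS1, hS2⟩
  by_contra hcon
  push Not at hcon
  obtain ⟨T, hT1, hT2⟩ := Set.exists_subset_encard_eq (s := S) (k := 15)
    (Order.add_one_le_of_lt hcon)
  have hfin : T.Finite := by
    rw [← Set.encard_lt_top_iff, hT2]
    decide
  have h3 := hc.upper hfin.toFinset (fun u hu => hS1 u (hT1 (hfin.mem_toFinset.mp hu)))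
    (fun u hu v hv huv => hS2 u (hT1 (hfin.mem_toFinset.mp hu)) v
      (hT1 (hfin.mem_toFinset.mp hv)) huv)
  rw [hfin.encard_eq_coe_toFinset_card] at hT2
  have h4 : hfin.toFinset.card = 15 := by exact_mod_cast hT2
  omega

end Petty158
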