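import Mathlib
import Pool.Agent.W_158c65_h48.Space
/-! Fourteen points at distances greater than one. -/
set_option autoImplicit false
namespace Petty158

open Real

/-- the fourteen points, multiplied by `44785000` -/
def ptsList : List (ℤ × ℤ × ℤ) := [(0, 0, 44785000), (0, 0, -44785000), (31349500, 0, 13435500),
  (-31349500, 0, 13435500), (0, 31349500, -13435500), (0, -31349500, -13435500),
  (31800000, 31535000, 0), (31800000, -31535000, 0), (-31800000, 31535000, 0),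
  (-31800000, -31535000, 0), (1947387, 22352616, 22347715), (-1947387, -22352616, 22347715),
  (-22352616, 1947387, -22347715), (22352616, -1947387, -22347715)]

def pts (i : Fin 14) : ℤ × ℤ × ℤ := ptsList.getD i.1 (0, 0, 0)

theorem pts_norm : ∀ i : Fin 14, (pts i).1 ^ 2 + (pts i).2.1 ^ 2 = (44785000 - |(pts i).2.2|) ^ 2 ∧
    |(pts i).2.2| ≤ 44785000 := by decide +kernel

theorem pts_dist : ∀ i j : Fin 14, i ≠ j →
    44785000 < |(pts i).2.2 - (pts j).2.2| ∨ (44785000 - |(pts i).2.2 - (pts j).2.2|) ^ 2 <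
      ((pts i).1 - (pts j).1) ^ 2 + ((pts i).2.1 - (pts j).2.1) ^ 2 := by decide +kernel

/-- the point of the space with the coordinates `p / 44785000` -/
noncomputable def toP (p : ℤ × ℤ × ℤ) : Petty :=
  WithLp.toLp 1 (!₂[(p.1 : ℝ) / 44785000, (p.2.1 : ℝ) / 44785000], (p.2.2 : ℝ) / 44785000)

lemma plane_norm_sq (a b : ℝ) : ‖(!₂[a, b] : EuclideanSpace ℝ (Fin 2))‖ = √(a ^ 2 + b ^ 2) := by
  rw [← Real.sqrt_sq (norm_nonneg _), EuclideanSpace.real_norm_sq_eq, Fin.sum_univ_two]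
  rfl

lemma norm_toP (i : Fin 14) : ‖toP (pts i)‖ = 1 := by
  obtain ⟨h1, h2⟩ := pts_norm i
  rw [norm_petty]
  have e1 : (toP (pts i)).fst = !₂[((pts i).1 : ℝ) / 44785000, ((pts i).2.1 : ℝ) / 44785000] := rfl
  have e2 : (toP (pts i)).snd = ((pts i).2.2 : ℝ) / 44785000 := rfl
  rw [e1, e2, plane_norm_sq]
  generalize (pts i).1 = a at h1
  generalize (pts i).2.1 = b at h1
  generalize (pts i).2.2 = c at h1 h2
  have h1' : (a : ℝ) ^ 2 + (b : ℝ) ^ 2 = (44785000 - |(c : ℝ)|) ^ 2 := by exact_mod_cast h1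
  have h2' : |(c : ℝ)| ≤ 44785000 := by exact_mod_cast h2
  have h3 : ((a : ℝ) / 44785000) ^ 2 + ((b : ℝ) / 44785000) ^ 2 =
      ((44785000 - |(c : ℝ)|) / 44785000) ^ 2 := by
    rw [div_pow, div_pow, div_pow, ← add_div, h1']
  rw [h3, Real.sqrt_sq (div_nonneg (by linarith) (by norm_num)), abs_div,
    abs_of_pos (show (0 : ℝ) < 44785000 by norm_num)]
  field_simp
  ring

lemma dist_toP {i j : Fin 14} (hij : i ≠ j) : 1 < ‖toP (pts i) - toP (pts j)‖ := by
  have h := pts_dist i j hij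
  rw [norm_sub_petty]
  have e1 : (toP (pts i)).fst - (toP (pts j)).fst =
      !₂[(((pts i).1 : ℝ) - ((pts j).1 : ℝ)) / 44785000,
        (((pts i).2.1 : ℝ) - ((pts j).2.1 : ℝ)) / 44785000] := by
    have e0 : ∀ p, (toP p).fst = !₂[(p.1 : ℝ) / 44785000, (p.2.1 : ℝ) / 44785000] := fun _ => rfl
    rw [e0, e0]
    ext k
    fin_cases k <;> simp <;> ring
  have e2 : (toP (pts i)).snd - (toP (pts j)).snd =
      (((pts i).2.2 : ℝ) - ((pts j).2.2 : ℝ)) / 44785000 := by
    have e0 : ∀ p, (toP p).snd = (p.2.2 : ℝ) / 44785000 := fun _ => rfl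
    rw [e0, e0]; ring
  rw [e1, e2, plane_norm_sq]
  generalize hx : ((pts i).1 - (pts j).1) = a at h
  generalize hy : ((pts i).2.1 - (pts j).2.1) = b at h
  generalize hz : ((pts i).2.2 - (pts j).2.2) = c at h
  have hx' : ((pts i).1 : ℝ) - ((pts j).1 : ℝ) = a := by rw [← hx]; push_cast; ring
  have hy' : ((pts i).2.1 : ℝ) - ((pts j).2.1 : ℝ) = b := by rw [← hy]; push_cast; ring
  have hz' : ((pts i).2.2 : ℝ) - ((pts j).2.2 : ℝ) = c := by rw [← hz]; push_cast; ring
  rw [hx', hy', hz', abs_div, abs_of_pos (show (0 : ℝ) < 44785000 by norm_num)]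
  have hs := Real.sqrt_nonneg (((a : ℝ) / 44785000) ^ 2 + ((b : ℝ) / 44785000) ^ 2)
  by_cases hbig : 44785000 < |c|
  · have h3 : (44785000 : ℝ) < |(c : ℝ)| := by exact_mod_cast hbig
    have h4 : 1 < |(c : ℝ)| / 44785000 := by rw [lt_div_iff₀ (by norm_num)]; linarith
    linarith
  · have h1 := h.resolve_left hbig
    have h2 : |(c : ℝ)| ≤ 44785000 := by exact_mod_cast (not_lt.mp hbig)
    have h3 : (44785000 - |(c : ℝ)|) ^ 2 < (a : ℝ) ^ 2 + (b : ℝ) ^ 2 := by exact_mod_cast h1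
    have h4 : (44785000 - |(c : ℝ)|) / 44785000 <
        √(((a : ℝ) / 44785000) ^ 2 + ((b : ℝ) / 44785000) ^ 2) := by
      apply Real.lt_sqrt_of_sq_lt
      rw [div_pow, div_pow, div_pow, ← add_div]
      exact div_lt_div_of_pos_right h3 (by norm_num)
    have h5 : (44785000 - |(c : ℝ)|) / 44785000 = 1 - |(c : ℝ)| / 44785000 := by
      field_simp
    linarith

theorem fourteen_le : 14 ≤ strictHadwiger Petty := by
  have hinj : Function.Injective fun i : Fin 14 => toP (pts i) := by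
    intro i j hij
    by_contra hne
    have h := dist_toP hne
    have hij' : toP (pts i) = toP (pts j) := hij
    rw [hij', sub_self, norm_zero] at h
    linarith
  have hcard : (Set.range fun i : Fin 14 => toP (pts i)).encard = 14 := by
    rw [← Set.image_univ, hinj.encard_image, Set.encard_univ]
    simp
  unfold strictHadwiger
  rw [← hcard]
  refine le_iSup (fun S : {S : Set Petty // (∀ u ∈ S, ‖u‖ = 1) ∧
    ∀ u ∈ S, ∀ v ∈ S, u ≠ v → 1 < ‖u - v‖} => S.1.encard)
    ⟨Set.range fun i : Fin 14 => toP (pts i), ?_, ?_⟩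
  · rintro _ ⟨i, rfl⟩; exact norm_toP i
  · rintro _ ⟨i, rfl⟩ _ ⟨j, rfl⟩ hne
    exact dist_toP (fun hh => hne (by rw [hh]))

theorem strict_le (X : Type) [NormedAddCommGroup X] : strictHadwiger X ≤ hadwiger X := by
  unfold strictHadwiger hadwiger
  apply iSup_le
  rintro ⟨S, hS1, hS2⟩
  exact le_iSup (fun S : {S : Set X // (∀ u ∈ S, ‖u‖ = 1) ∧
    ∀ u ∈ S, ∀ v ∈ S, u ≠ v → 1 ≤ ‖u - v‖} => S.1.encard)
    ⟨S, hS1, fun u hu v hv huv => (hS2 u hu v hv huv).le⟩

theorem Checked.final (hc : Checked) : hadwiger Petty = 14 ∧ strictHadwiger Petty = 14 := by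
  have h1 := hc.hadwiger_le
  have h2 := fourteen_le
  have h3 := strict_le Petty
  exact ⟨le_antisymm h1 (le_trans h2 h3), le_antisymm (le_trans h3 h1) h2⟩

end Petty158
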