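import Mathlib
import Pool.Agent.W_158c65_h48.Lower
import Pool.Agent.W_158c65_h48.Good
/-! All checked chunks have infeasible states. -/
set_option autoImplicit false
namespace Petty158

theorem all_inf {A kp km n K : ℕ} (hn : n = kp + km) (h : GoodR A kp km n 0 K) :
    ∀ k < K, Inf kp km (getSt A k) := by
  intro k
  induction k using Nat.strong_induction_on with
  | _ k ih =>
    intro hk
    obtain ⟨S, f, hS⟩ := h k (Nat.zero_le _) hk
    refine chk_sound (A := A) (K := k) (S := S) (n := n) hn (fun j hj => ih j hj (by omega)) f 0 _ ?_
    have := Nat.le_of_ble_eq_true hS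
    omega

end Petty158
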